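import Pool.Agent.H427R2.MU.St

set_option autoImplicit false

namespace Pool.Agent.H427R2.MU

open Finset

theorem BK_p2 (k : ℕ) : 2 * (2 : ℝ) ^ k = 2 ^ (k + 1) := by rw [pow_succ]; ring

theorem BK_p2n (k : ℕ) : 2 ^ (k + 1) = 2 * 2 ^ k := by rw [pow_succ]; ring

theorem BK_p4 (k : ℕ) : (4 : ℝ) ^ k = (2 ^ k) ^ 2 := by
  rw [← pow_mul, mul_comm, pow_mul]; norm_num

theorem BK_D_mul (n : ℕ) (θ : ℝ) :
    D n θ * Real.sin (θ / 2) = Real.sin (((n : ℝ) + 1 / 2) * θ) := by
  unfold D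
  induction n with
  | zero =>
    simp only [Nat.cast_zero, zero_add]
    have : Icc 1 0 = (∅ : Finset ℕ) := by decide
    rw [this, Finset.sum_empty]
    rw [mul_zero, add_zero, one_mul]
    congr 1
    ring
  | succ n ih =>
    rw [Finset.sum_Icc_succ_top (by omega)]
    have h : Real.sin ((((n + 1 : ℕ) : ℝ) + 1 / 2) * θ) - Real.sin (((n : ℝ) + 1 / 2) * θ)
        = 2 * Real.sin (θ / 2) * Real.cos (((n + 1 : ℕ) : ℝ) * θ) := by
      rw [Real.sin_sub_sin]
      push_cast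
      congr 3 <;> ring
    linear_combination ih - h

theorem BK_D_neg (n : ℕ) (θ : ℝ) : D n (-θ) = D n θ := by
  unfold D
  congr 2
  apply Finset.sum_congr rfl
  intro k _
  rw [mul_neg, Real.cos_neg]

theorem BK_D_per (n : ℕ) (θ : ℝ) (m : ℤ) : D n (θ - m * (2 * Real.pi)) = D n θ := by
  unfold D
  congr 2
  apply Finset.sum_congr rfl
  intro k _
  have : (k : ℝ) * (θ - m * (2 * Real.pi)) = k * θ - ((k * m : ℤ) : ℝ) * (2 * Real.pi) := by
    push_cast; ring
  rw [this, Real.cos_sub_int_mul_two_pi]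

theorem BK_red (n : ℕ) (θ : ℝ) : ∃ t : ℝ, 0 ≤ t ∧ t ≤ Real.pi ∧ ∀ n, D n θ = D n t := by
  refine ⟨|θ - (round (θ / (2 * Real.pi)) : ℤ) * (2 * Real.pi)|, abs_nonneg _, ?_, ?_⟩
  · have h := abs_sub_round (θ / (2 * Real.pi))
    have hp : 0 < 2 * Real.pi := by positivity
    have e : θ - (round (θ / (2 * Real.pi)) : ℤ) * (2 * Real.pi)
        = (θ / (2 * Real.pi) - (round (θ / (2 * Real.pi)) : ℤ)) * (2 * Real.pi) := by
      field_simp
    rw [e, abs_mul, abs_of_pos hp]
    calc _ ≤ 1 / 2 * (2 * Real.pi) := mul_le_mul_of_nonneg_right h hp.le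
      _ = Real.pi := by ring
  · intro n
    rcases abs_choice (θ - (round (θ / (2 * Real.pi)) : ℤ) * (2 * Real.pi)) with h | h
    · rw [h, BK_D_per]
    · rw [h, BK_D_neg, BK_D_per]

theorem BK_mgf (N : ℕ) (A : Finset ℕ) (hA : A.card = N) (hN : 0 < N) (X : ℕ → ℝ)
    (hX : ∀ n, |X n| ≤ 1) (s : ℝ) (hs0 : 0 ≤ s) (hs : s ≤ 1) :
    ∑ n ∈ A, Real.exp (-(s * X n)) ≤
      N * Real.exp (-(s * ((1 / (N : ℝ)) * ∑ n ∈ A, X n)) + s ^ 2) := by
  have h1 : ∀ n ∈ A, Real.exp (-(s * X n)) ≤ 1 - s * X n + s ^ 2 := by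
    intro n _
    have hx := hX n
    have hb : |-(s * X n)| ≤ 1 := by
      rw [abs_neg, abs_mul, abs_of_nonneg hs0]
      nlinarith [abs_nonneg (X n)]
    have h := Real.abs_exp_sub_one_sub_id_le hb
    have h' := (abs_le.mp h).2
    have h2 : (-(s * X n)) ^ 2 ≤ s ^ 2 := by
      have : X n ^ 2 ≤ 1 := by
        rw [← sq_abs]
        nlinarith [abs_nonneg (X n)]
      nlinarith [sq_nonneg s]
    linarith
  calc ∑ n ∈ A, Real.exp (-(s * X n)) ≤ ∑ n ∈ A, (1 - s * X n + s ^ 2) := Finset.sum_le_sum h1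
    _ = N * ((-(s * ((1 / (N : ℝ)) * ∑ n ∈ A, X n)) + s ^ 2) + 1) := by
      rw [Finset.sum_add_distrib, Finset.sum_sub_distrib, ← Finset.mul_sum]
      simp only [Finset.sum_const, hA, nsmul_eq_mul]
      have : (N : ℝ) ≠ 0 := by positivity
      field_simp
      ring
    _ ≤ _ := by
      apply mul_le_mul_of_nonneg_left (Real.add_one_le_exp _) (by positivity)

theorem BK_count (I : ℕ) (hI : 3 ≤ I) :
    (21 * (2 : ℝ) ^ I) * Real.exp (-(5 / 2 * (I : ℝ))) < 1 := by
  have h1 : (8 : ℝ) ≤ Real.exp (5 / 2) := by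
    have e : Real.exp (5 / 2) = Real.exp 1 * Real.exp 1 * Real.exp (1 / 2) := by
      rw [← Real.exp_add, ← Real.exp_add]; norm_num
    have h2 := Real.exp_one_gt_d9
    have h3 : (1 : ℝ) / 2 + 1 ≤ Real.exp (1 / 2) := Real.add_one_le_exp _
    rw [e]
    have h4 : (7 : ℝ) ≤ Real.exp 1 * Real.exp 1 := by nlinarith
    nlinarith
  have h2 : (8 : ℝ) ^ I ≤ Real.exp (5 / 2 * (I : ℝ)) := by
    rw [mul_comm, Real.exp_nat_mul]
    exact pow_le_pow_left₀ (by norm_num) h1 I
  have h3 : (21 : ℝ) * 2 ^ I < 8 ^ I := by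
    have : (8 : ℝ) ^ I = 4 ^ I * 2 ^ I := by rw [← mul_pow]; norm_num
    rw [this]
    have h4 : (64 : ℝ) ≤ 4 ^ I := by
      calc (64 : ℝ) = 4 ^ 3 := by norm_num
        _ ≤ 4 ^ I := pow_le_pow_right₀ (by norm_num) hI
    have h5 : (0 : ℝ) < 2 ^ I := by positivity
    nlinarith
  rw [Real.exp_neg, ← div_eq_mul_inv, div_lt_one (Real.exp_pos _)]
  linarith

theorem BK_exists (h1 : S_BKM) (I : ℕ) (hI : 3 ≤ I) :
    ∃ ω : Fin I × Fin (1000 * I ^ 2) → ℕ,
      (∀ p, 2 ^ (p.1 : ℕ) ≤ ω p ∧ ω p < 2 ^ ((p.1 : ℕ) + 1)) ∧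
      ∀ j : ℕ, 3 / (2 : ℝ) ^ I ≤ (j : ℝ) / (40 * 2 ^ I) → (j : ℝ) / (40 * 2 ^ I) ≤ 0.52 →
        0.1 * (1000 * (I : ℝ) ^ 2) ≤
          ∑ p, Real.sin (((ω p : ℝ) + 1 / 2) * ((j : ℝ) / (40 * 2 ^ I))) := by
  classical
  set L : ℝ := 1000 * (I : ℝ) ^ 2 with hL
  have hIpos : (0 : ℝ) < I := by
    have : 0 < I := by omega
    exact_mod_cast this
  set s : ℝ := 1 / (20 * (I : ℝ)) with hs
  have hs0 : 0 < s := by rw [hs]; positivity
  have hs1 : s ≤ 1 := by
    rw [hs, div_le_one (by positivity)]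
    have : (3 : ℝ) ≤ I := by exact_mod_cast hI
    linarith
  set S : Fin I × Fin (1000 * I ^ 2) → Finset ℕ :=
    fun p => Ico (2 ^ (p.1 : ℕ)) (2 ^ ((p.1 : ℕ) + 1)) with hS
  set grid : Finset ℕ := (range (21 * 2 ^ I)).filter
    (fun j => 3 / (2 : ℝ) ^ I ≤ (j : ℝ) / (40 * 2 ^ I) ∧ (j : ℝ) / (40 * 2 ^ I) ≤ 0.52) with hgrid
  set G : (Fin I × Fin (1000 * I ^ 2) → ℕ) → ℕ → ℝ := fun ω j =>
    ∑ p, Real.sin (((ω p : ℝ) + 1 / 2) * ((j : ℝ) / (40 * 2 ^ I))) with hG
  have hcard : ∀ p, (S p).card = 2 ^ (p.1 : ℕ) := by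
    intro p
    have h1 := BK_p2n (p.1 : ℕ)
    simp only [hS, Nat.card_Ico]
    omega
  have hOm : ((Fintype.piFinset S).card : ℝ) =
      ∏ p : Fin I × Fin (1000 * I ^ 2), (2 : ℝ) ^ (p.1 : ℕ) := by
    rw [Fintype.card_piFinset]
    push_cast
    apply Finset.prod_congr rfl
    intro p _
    rw [hcard]
    push_cast
    rfl
  have hOmpos : 0 < ((Fintype.piFinset S).card : ℝ) := by
    rw [hOm]
    apply Finset.prod_pos
    intro p _
    positivity
  -- each grid point
  have hpt : ∀ j ∈ grid, ∑ ω ∈ Fintype.piFinset S, Real.exp (-(s * (G ω j - 0.1 * L))) ≤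
      ((Fintype.piFinset S).card : ℝ) * Real.exp (-(5 / 2 * (I : ℝ))) := by
    intro j hj
    rw [hgrid, Finset.mem_filter] at hj
    set θ : ℝ := (j : ℝ) / (40 * 2 ^ I) with hθ
    have hmean := h1 I θ (by omega) hj.2.1 hj.2.2
    set μ : ℕ → ℝ := fun i => (1 / (2 : ℝ) ^ i) * ∑ n ∈ Ico ((2 : ℕ) ^ i) ((2 : ℕ) ^ (i + 1)),
      Real.sin (((n : ℝ) + 1 / 2) * θ) with hμ
    have e1 : ∀ ω ∈ Fintype.piFinset S, Real.exp (-(s * (G ω j - 0.1 * L))) =
        Real.exp (0.1 * s * L) * ∏ p, Real.exp (-(s * Real.sin (((ω p : ℝ) + 1 / 2) * θ))) := by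
      intro ω _
      rw [← Real.exp_sum, ← Real.exp_add]
      congr 1
      rw [Finset.sum_neg_distrib, ← Finset.mul_sum]
      simp only [hG]
      ring
    rw [Finset.sum_congr rfl e1, ← Finset.mul_sum]
    have e2 := Finset.prod_univ_sum S
      (fun _ n => Real.exp (-(s * Real.sin (((n : ℝ) + 1 / 2) * θ))))
    rw [← e2]
    have e3 : ∏ p : Fin I × Fin (1000 * I ^ 2),
        ∑ n ∈ S p, Real.exp (-(s * Real.sin (((n : ℝ) + 1 / 2) * θ))) ≤
        ∏ p : Fin I × Fin (1000 * I ^ 2),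
          ((2 : ℝ) ^ (p.1 : ℕ) * Real.exp (-(s * μ p.1) + s ^ 2)) := by
      apply Finset.prod_le_prod
      · intro p _
        apply Finset.sum_nonneg
        intro n _
        exact (Real.exp_pos _).le
      · intro p _
        have h := BK_mgf (2 ^ (p.1 : ℕ)) (S p) (hcard p) (by positivity)
          (fun n => Real.sin (((n : ℝ) + 1 / 2) * θ)) (fun n => Real.abs_sin_le_one _) s hs0.le hs1
        push_cast at h
        exact h
    have e4 : ∏ p : Fin I × Fin (1000 * I ^ 2),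
          ((2 : ℝ) ^ (p.1 : ℕ) * Real.exp (-(s * μ p.1) + s ^ 2)) =
        ((Fintype.piFinset S).card : ℝ) *
          Real.exp (-(s * (L * ∑ i ∈ range I, μ i)) + s ^ 2 * (L * I)) := by
      rw [Finset.prod_mul_distrib, hOm, ← Real.exp_sum]
      congr 2
      rw [Finset.sum_add_distrib, Finset.sum_neg_distrib, ← Finset.mul_sum,
        Fintype.sum_prod_type]
      simp only [Finset.sum_const, Finset.card_univ, Fintype.card_fin, nsmul_eq_mul,
        Fintype.card_prod]
      rw [← Finset.mul_sum, Fin.sum_univ_eq_sum_range (fun i => μ i) I]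
      push_cast
      rw [hL]
      ring
    calc Real.exp (0.1 * s * L) * ∏ p : Fin I × Fin (1000 * I ^ 2),
        ∑ n ∈ S p, Real.exp (-(s * Real.sin (((n : ℝ) + 1 / 2) * θ)))
        ≤ Real.exp (0.1 * s * L) * (((Fintype.piFinset S).card : ℝ) *
          Real.exp (-(s * (L * ∑ i ∈ range I, μ i)) + s ^ 2 * (L * I))) := by
          apply mul_le_mul_of_nonneg_left _ (Real.exp_pos _).le
          rw [← e4]
          exact e3
      _ = ((Fintype.piFinset S).card : ℝ) * Real.exp (0.1 * s * L +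
          (-(s * (L * ∑ i ∈ range I, μ i)) + s ^ 2 * (L * I))) := by
          rw [Real.exp_add (0.1 * s * L) _]; ring
      _ ≤ ((Fintype.piFinset S).card : ℝ) * Real.exp (-(5 / 2 * (I : ℝ))) := by
          apply mul_le_mul_of_nonneg_left _ hOmpos.le
          apply Real.exp_le_exp.mpr
          have hLpos : 0 < L := by rw [hL]; positivity
          have h2 : s * (L * 0.2) ≤ s * (L * ∑ i ∈ range I, μ i) := by
            apply mul_le_mul_of_nonneg_left _ hs0.le
            apply mul_le_mul_of_nonneg_left hmean hLpos.le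
          have h3 : s * L = 50 * I := by
            rw [hs, hL]; field_simp; ring
          have h4 : s ^ 2 * (L * I) = 5 / 2 * I := by
            rw [hs, hL]; field_simp; ring
          rw [h4]
          have h5 : 0.1 * s * L = 5 * I := by
            rw [mul_assoc, h3]; ring
          have h6 : s * (L * 0.2) = 10 * I := by
            rw [← mul_assoc, h3]; ring
          linarith
  have htot : ∑ ω ∈ Fintype.piFinset S, ∑ j ∈ grid, Real.exp (-(s * (G ω j - 0.1 * L))) <
      ∑ ω ∈ Fintype.piFinset S, (1 : ℝ) := by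
    rw [Finset.sum_comm]
    have hgc : (grid.card : ℝ) ≤ 21 * 2 ^ I := by
      have : grid.card ≤ 21 * 2 ^ I := by
        rw [hgrid]
        exact (Finset.card_filter_le _ _).trans (by rw [Finset.card_range])
      exact_mod_cast this
    calc ∑ j ∈ grid, ∑ ω ∈ Fintype.piFinset S, Real.exp (-(s * (G ω j - 0.1 * L)))
        ≤ ∑ j ∈ grid, ((Fintype.piFinset S).card : ℝ) * Real.exp (-(5 / 2 * (I : ℝ))) :=
          Finset.sum_le_sum hpt
      _ = grid.card * (((Fintype.piFinset S).card : ℝ) * Real.exp (-(5 / 2 * (I : ℝ)))) := by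
          rw [Finset.sum_const, nsmul_eq_mul]
      _ ≤ (21 * 2 ^ I) * (((Fintype.piFinset S).card : ℝ) * Real.exp (-(5 / 2 * (I : ℝ)))) := by
          apply mul_le_mul_of_nonneg_right hgc
          exact mul_nonneg hOmpos.le (Real.exp_pos _).le
      _ = ((Fintype.piFinset S).card : ℝ) * ((21 * 2 ^ I) * Real.exp (-(5 / 2 * (I : ℝ)))) := by
          ring
      _ < ((Fintype.piFinset S).card : ℝ) * 1 :=
          mul_lt_mul_of_pos_left (BK_count I hI) hOmpos
      _ = ∑ ω ∈ Fintype.piFinset S, (1 : ℝ) := by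
          rw [Finset.sum_const, nsmul_eq_mul]
  obtain ⟨ω, hω, hlt⟩ := Finset.exists_lt_of_sum_lt htot
  refine ⟨ω, ?_, ?_⟩
  · intro p
    have := (Fintype.mem_piFinset.mp hω) p
    rw [hS] at this
    exact Finset.mem_Ico.mp this
  · intro j hj1 hj2
    by_contra hcon
    push Not at hcon
    have hjg : j ∈ grid := by
      rw [hgrid, Finset.mem_filter]
      refine ⟨?_, hj1, hj2⟩
      rw [Finset.mem_range]
      have h2 : (0 : ℝ) < 2 ^ I := by positivity
      rw [div_le_iff₀ (by positivity)] at hj2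
      have : (j : ℝ) < ((21 * 2 ^ I : ℕ) : ℝ) := by
        push_cast
        nlinarith
      exact_mod_cast this
    have h3 : Real.exp (-(s * (G ω j - 0.1 * L))) ≤
        ∑ j ∈ grid, Real.exp (-(s * (G ω j - 0.1 * L))) :=
      Finset.single_le_sum (f := fun j => Real.exp (-(s * (G ω j - 0.1 * L))))
        (fun j _ => (Real.exp_pos _).le) hjg
    have h4 : 1 < Real.exp (-(s * (G ω j - 0.1 * L))) := by
      rw [Real.one_lt_exp_iff]
      have : G ω j < 0.1 * L := hcon
      nlinarith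
    linarith

theorem BK_G_lip {ι : Type*} [Fintype ι] (n : ι → ℕ) (M : ℝ)
    (hM : ∑ p, ((n p : ℝ) + 1 / 2) ≤ M) (a b : ℝ) (hab : a ≤ b) :
    ∑ p, Real.sin (((n p : ℝ) + 1 / 2) * b) - M * (b - a) ≤
      ∑ p, Real.sin (((n p : ℝ) + 1 / 2) * a) := by
  have h : ∀ p ∈ (Finset.univ : Finset ι), Real.sin (((n p : ℝ) + 1 / 2) * b) -
      Real.sin (((n p : ℝ) + 1 / 2) * a) ≤ ((n p : ℝ) + 1 / 2) * (b - a) := by
    intro p _
    have h1 := Real.abs_sin_sub_sin_le (((n p : ℝ) + 1 / 2) * b) (((n p : ℝ) + 1 / 2) * a)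
    have h2 : |((n p : ℝ) + 1 / 2) * b - ((n p : ℝ) + 1 / 2) * a| =
        ((n p : ℝ) + 1 / 2) * (b - a) := by
      rw [← mul_sub, abs_of_nonneg]
      exact mul_nonneg (by positivity) (by linarith)
    rw [h2] at h1
    exact (abs_le.mp h1).2
  have h3 := Finset.sum_le_sum h
  rw [Finset.sum_sub_distrib, ← Finset.sum_mul] at h3
  have h4 := mul_le_mul_of_nonneg_right hM (sub_nonneg.mpr hab)
  linarith

theorem t_BK (h1 : S_BKM) : S_BK := by
  intro I hI
  have hIpos : (0 : ℝ) < I := by exact_mod_cast hI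
  have hq : (0 : ℝ) < 2 ^ I := by positivity
  have hpi3 := Real.pi_gt_three
  -- the choice
  obtain ⟨ω, hω, hgood⟩ : ∃ ω : Fin I × Fin (1000 * I ^ 2) → ℕ,
      (∀ p, 2 ^ (p.1 : ℕ) ≤ ω p ∧ ω p < 2 ^ ((p.1 : ℕ) + 1)) ∧
      ∀ j : ℕ, 3 / (2 : ℝ) ^ I ≤ (j : ℝ) / (40 * 2 ^ I) → (j : ℝ) / (40 * 2 ^ I) ≤ 0.52 →
        0.1 * (1000 * (I : ℝ) ^ 2) ≤
          ∑ p, Real.sin (((ω p : ℝ) + 1 / 2) * ((j : ℝ) / (40 * 2 ^ I))) := by
    rcases Nat.lt_or_ge I 3 with h | h
    · refine ⟨fun p => 2 ^ (p.1 : ℕ), ?_, ?_⟩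
      · intro p
        refine ⟨le_refl _, ?_⟩
        have h0 : 0 < 2 ^ (p.1 : ℕ) := by positivity
        have h1 := BK_p2n (p.1 : ℕ)
        show 2 ^ (p.1 : ℕ) < 2 ^ ((p.1 : ℕ) + 1)
        omega
      · intro j hj1 hj2
        exfalso
        have h4 : (2 : ℝ) ^ I ≤ 4 := by
          calc (2 : ℝ) ^ I ≤ 2 ^ 2 := pow_le_pow_right₀ (by norm_num) (by omega)
            _ = 4 := by norm_num
        have h5 : (3 : ℝ) / 4 ≤ 3 / 2 ^ I :=
          div_le_div_of_nonneg_left (by norm_num) hq h4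
        have : (3 : ℝ) / 4 ≤ 0.52 := h5.trans (hj1.trans hj2)
        norm_num at this
    · exact BK_exists h1 I h
  have hcardeq : Fintype.card (Fin (1000 * I ^ 3)) =
      Fintype.card (Fin I × Fin (1000 * I ^ 2)) := by
    simp only [Fintype.card_fin, Fintype.card_prod]
    ring
  let e : Fin (1000 * I ^ 3) ≃ Fin I × Fin (1000 * I ^ 2) := Fintype.equivOfCardEq hcardeq
  -- geometric sums
  have hg2 : ∑ i ∈ range I, (2 : ℝ) ^ i = 2 ^ I - 1 := by
    rw [geom_sum_eq (by norm_num)]; norm_num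
  have hg4 : ∑ i ∈ range I, (4 : ℝ) ^ i = (4 ^ I - 1) / 3 := by
    rw [geom_sum_eq (by norm_num)]; norm_num
  have hsumprod : ∀ f : ℕ → ℝ, ∑ p : Fin I × Fin (1000 * I ^ 2), f (p.1 : ℕ) =
      1000 * (I : ℝ) ^ 2 * ∑ i ∈ range I, f i := by
    intro f
    rw [Fintype.sum_prod_type]
    simp only [Finset.sum_const, Finset.card_univ, Fintype.card_fin, nsmul_eq_mul]
    rw [← Finset.mul_sum, Fin.sum_univ_eq_sum_range (fun i => f i) I]
    push_cast
    ring
  have hq2 : (2 : ℝ) ≤ 2 ^ I := by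
    calc (2 : ℝ) = 2 ^ 1 := by norm_num
      _ ≤ 2 ^ I := pow_le_pow_right₀ (by norm_num) hI
  have hub : ∀ p, (ω p : ℝ) + 1 ≤ 2 * 2 ^ (p.1 : ℕ) := by
    intro p
    have := (hω p).2
    have h2 : ω p + 1 ≤ 2 * 2 ^ (p.1 : ℕ) := by
      have h1 := BK_p2n (p.1 : ℕ)
      omega
    exact_mod_cast h2
  have hlb : ∀ p, (2 : ℝ) ^ (p.1 : ℕ) ≤ (ω p : ℝ) := by
    intro p
    have := (hω p).1
    exact_mod_cast this
  have hM : ∑ p, ((ω p : ℝ) + 1 / 2) ≤ 2000 * (I : ℝ) ^ 2 * 2 ^ I := by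
    calc ∑ p, ((ω p : ℝ) + 1 / 2) ≤ ∑ p : Fin I × Fin (1000 * I ^ 2), 2 * (2 : ℝ) ^ (p.1 : ℕ) := by
          apply Finset.sum_le_sum
          intro p _
          have := hub p
          linarith
      _ = 1000 * (I : ℝ) ^ 2 * ∑ i ∈ range I, 2 * (2 : ℝ) ^ i := hsumprod (fun i => 2 * (2 : ℝ) ^ i)
      _ = 1000 * (I : ℝ) ^ 2 * (2 * (2 ^ I - 1)) := by rw [← Finset.mul_sum, hg2]
      _ ≤ _ := by nlinarith [sq_nonneg (I : ℝ)]
  refine ⟨fun l => ω (e l), ?_, ?_, ?_, ?_, ?_⟩
  · intro l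
    constructor
    · have : 0 < 2 ^ ((e l).1 : ℕ) := by positivity
      exact this.trans_le (hω (e l)).1
    · refine (hω (e l)).2.trans_le ?_
      apply Nat.pow_le_pow_right (by norm_num)
      have := (e l).1.isLt
      omega
  · rw [Equiv.sum_comp e (fun p => (ω p : ℝ))]
    refine le_trans (Finset.sum_le_sum ?_) hM
    intro p _
    linarith
  · rw [Equiv.sum_comp e (fun p => (ω p : ℝ))]
    calc 500 * (I : ℝ) ^ 2 * 2 ^ I ≤ 1000 * (I : ℝ) ^ 2 * (2 ^ I - 1) := by
          nlinarith [sq_nonneg (I : ℝ)]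
      _ = 1000 * (I : ℝ) ^ 2 * ∑ i ∈ range I, (2 : ℝ) ^ i := by rw [hg2]
      _ = ∑ p : Fin I × Fin (1000 * I ^ 2), (2 : ℝ) ^ (p.1 : ℕ) :=
          (hsumprod (fun i => (2 : ℝ) ^ i)).symm
      _ ≤ _ := Finset.sum_le_sum (fun p _ => hlb p)
  · rw [Equiv.sum_comp e (fun p => (ω p : ℝ) ^ 2)]
    calc ∑ p, (ω p : ℝ) ^ 2 ≤ ∑ p : Fin I × Fin (1000 * I ^ 2), 4 * (4 : ℝ) ^ (p.1 : ℕ) := by
          apply Finset.sum_le_sum
          intro p _
          have h2 := hub p
          have h3 : (4 : ℝ) ^ (p.1 : ℕ) = (2 ^ (p.1 : ℕ)) ^ 2 := BK_p4 _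
          rw [h3]
          have h0 : (0 : ℝ) ≤ ω p := by positivity
          nlinarith
      _ = 1000 * (I : ℝ) ^ 2 * ∑ i ∈ range I, 4 * (4 : ℝ) ^ i := hsumprod (fun i => 4 * (4 : ℝ) ^ i)
      _ = 1000 * (I : ℝ) ^ 2 * (4 * ((4 ^ I - 1) / 3)) := by rw [← Finset.mul_sum, hg4]
      _ ≤ _ := by
          have : (0 : ℝ) < 4 ^ I := by positivity
          nlinarith [sq_nonneg (I : ℝ), mul_nonneg (sq_nonneg (I : ℝ)) this.le]
  · intro θ
    obtain ⟨t, ht0, htpi, hD⟩ := BK_red 0 θ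
    simp only [hD]
    rw [Equiv.sum_comp e (fun p => D (ω p) t)]
    have hcardR : ((Fintype.card (Fin I × Fin (1000 * I ^ 2)) : ℕ) : ℝ) = 1000 * (I : ℝ) ^ 3 := by
      rw [← hcardeq, Fintype.card_fin]
      push_cast
      ring
    have hrhs : -(5 * (1000 * (I : ℝ) ^ 3)) ≤ 0 := by
      have : 0 ≤ 1000 * (I : ℝ) ^ 3 := by positivity
      linarith
    rcases ht0.eq_or_lt with h0 | htpos
    · -- t = 0
      refine hrhs.trans (Finset.sum_nonneg ?_)
      intro p _
      rw [← h0]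
      unfold D
      simp only [mul_zero, Real.cos_zero]
      positivity
    · have hsin : 0 < Real.sin (t / 2) :=
        Real.sin_pos_of_pos_of_lt_pi (by linarith) (by linarith [Real.pi_pos])
      rcases le_or_gt t (Real.pi / 2 ^ I) with h2 | h2
      · refine hrhs.trans (Finset.sum_nonneg ?_)
        intro p _
        have h3 : 0 ≤ D (ω p) t * Real.sin (t / 2) := by
          rw [BK_D_mul]
          apply Real.sin_nonneg_of_nonneg_of_le_pi
          · positivity
          · have h4 : (ω p : ℝ) + 1 / 2 ≤ 2 ^ I := by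
              have h5 := hub p
              have h6 : 2 * (2 : ℝ) ^ (p.1 : ℕ) ≤ 2 ^ I := by
                calc 2 * (2 : ℝ) ^ (p.1 : ℕ) = 2 ^ ((p.1 : ℕ) + 1) := BK_p2 _
                  _ ≤ 2 ^ I := pow_le_pow_right₀ (by norm_num) (by
                    have := p.1.isLt
                    omega)
              linarith
            calc ((ω p : ℝ) + 1 / 2) * t ≤ 2 ^ I * (Real.pi / 2 ^ I) := by
                  apply mul_le_mul h4 h2 htpos.le hq.le
              _ = Real.pi := by field_simp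
        exact nonneg_of_mul_nonneg_left h3 hsin
      · rcases le_or_gt (1 / 2) t with h3 | h3
        · -- large t
          have hs4 : (1 : ℝ) / 5 ≤ Real.sin (t / 2) := by
            have hmono : Real.sin (1 / 4) ≤ Real.sin (t / 2) := by
              apply Real.sin_le_sin_of_le_of_le_pi_div_two
              · linarith
              · linarith
              · linarith
            have := Real.sin_gt_sub_cube (x := 1 / 4) (by norm_num)
            norm_num at this
            linarith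
          have h5 : ∀ p ∈ (Finset.univ : Finset (Fin I × Fin (1000 * I ^ 2))),
              (-5 : ℝ) ≤ D (ω p) t := by
            intro p _
            by_contra hcon
            push Not at hcon
            have h6 := BK_D_mul (ω p) t
            have h7 := Real.neg_one_le_sin (((ω p : ℝ) + 1 / 2) * t)
            rw [← h6] at h7
            nlinarith
          have h6 := Finset.sum_le_sum h5
          rw [Finset.sum_const, Finset.card_univ, nsmul_eq_mul, hcardR] at h6
          linarith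
        · -- middle range
          refine hrhs.trans ?_
          have hG : 0 ≤ ∑ p, Real.sin (((ω p : ℝ) + 1 / 2) * t) := by
            set j : ℕ := ⌈40 * 2 ^ I * t⌉₊ with hj
            have hj1 : 40 * 2 ^ I * t ≤ (j : ℝ) := Nat.le_ceil _
            have hj2 : (j : ℝ) < 40 * 2 ^ I * t + 1 := Nat.ceil_lt_add_one (by positivity)
            have hb1 : t ≤ (j : ℝ) / (40 * 2 ^ I) := by
              rw [le_div_iff₀ (by positivity)]
              linarith
            have hb2 : (j : ℝ) / (40 * 2 ^ I) ≤ t + 1 / (40 * 2 ^ I) := by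
              rw [div_le_iff₀ (by positivity)]
              have : (t + 1 / (40 * 2 ^ I)) * (40 * 2 ^ I) = 40 * 2 ^ I * t + 1 := by
                field_simp
              rw [this]
              exact hj2.le
            have hb3 : (1 : ℝ) / (40 * 2 ^ I) ≤ 1 / 80 := by
              apply one_div_le_one_div_of_le (by norm_num)
              linarith
            have hb4 : 3 / (2 : ℝ) ^ I ≤ (j : ℝ) / (40 * 2 ^ I) := by
              refine le_trans ?_ (h2.le.trans hb1)
              apply div_le_div_of_nonneg_right _ hq.le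
              exact hpi3.le
            have hg := hgood j hb4 (by
              have : t + 1 / (40 * 2 ^ I) ≤ 0.52 := by
                have h7 : (1 : ℝ) / 2 + 1 / 80 ≤ 0.52 := by norm_num
                linarith
              exact hb2.trans this)
            have hl := BK_G_lip ω _ hM t ((j : ℝ) / (40 * 2 ^ I)) hb1
            have h8 : 2000 * (I : ℝ) ^ 2 * 2 ^ I * ((j : ℝ) / (40 * 2 ^ I) - t) ≤
                2000 * (I : ℝ) ^ 2 * 2 ^ I * (1 / (40 * 2 ^ I)) := by
              apply mul_le_mul_of_nonneg_left _ (by positivity)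
              linarith
            have h9 : 2000 * (I : ℝ) ^ 2 * 2 ^ I * (1 / (40 * 2 ^ I)) = 50 * (I : ℝ) ^ 2 := by
              field_simp
              ring
            have h10 : 0 ≤ (I : ℝ) ^ 2 := by positivity
            norm_num at hg
            linarith
          have h11 : (∑ p, D (ω p) t) * Real.sin (t / 2) =
              ∑ p, Real.sin (((ω p : ℝ) + 1 / 2) * t) := by
            rw [Finset.sum_mul]
            apply Finset.sum_congr rfl
            intro p _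
            rw [BK_D_mul]
          rw [← h11] at hG
          exact nonneg_of_mul_nonneg_left hG hsin

end Pool.Agent.H427R2.MU
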