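import Pool.Agent.H427R2.MU.St

set_option autoImplicit false

/-! The multigraph on `V` and the dual bound for its directed cuts. -/

namespace Pool.Agent.H427R2.MU

open Finset
open Pool.Agent.Helper883.Dicut

theorem DUALK_kap_neg {J : ℕ} (nn : Fin J → ℕ) (d : ℤ) : kap nn (-d) = kap nn d := by
  unfold kap
  rw [abs_neg]

theorem DUALK_kap_comm {J : ℕ} (nn : Fin J → ℕ) (u v : ℤ) : kap nn (u - v) = kap nn (v - u) := by
  rw [← DUALK_kap_neg, neg_sub]

theorem DUALK_kap_nat {J : ℕ} (nn : Fin J → ℕ) (d : ℤ) : ∃ k : ℕ, kap nn d = k := by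
  unfold kap
  exact ⟨_, Finset.sum_boole _ _⟩

theorem DUALK_kp_comm {J : ℕ} (nn : Fin J → ℕ) (u v : ℤ) : kp nn (u - v) = kp nn (v - u) := by
  unfold kp
  by_cases h : u = v
  · subst h; rfl
  · rw [if_neg (by omega), if_neg (by omega), DUALK_kap_comm]

/-- the arc multiplicities -/
noncomputable def DUALK_k {J : ℕ} (nn : Fin J → ℕ) (u v : ℤ) : ℝ :=
  if u < v then kap nn (v - u) else 0

theorem DUALK_kp_eq {J : ℕ} (nn : Fin J → ℕ) (u v : ℤ) :
    kp nn (u - v) = DUALK_k nn u v + DUALK_k nn v u + if u = v then 6 * (J : ℝ) else 0 := by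
  unfold kp DUALK_k
  rcases lt_trichotomy u v with h | h | h
  · rw [if_neg (by omega), if_pos h, if_neg (by omega), if_neg (by omega), DUALK_kap_comm]
    ring
  · subst h
    simp
  · rw [if_neg (by omega), if_neg (by omega), if_pos h, if_neg (by omega)]
    ring

theorem DUALK_bal {J : ℕ} (nn : Fin J → ℕ) (V : Finset ℤ) (v : ℤ) :
    balK nn V v = (∑ u ∈ V, DUALK_k nn v u) - ∑ u ∈ V, DUALK_k nn u v := by
  unfold balK DUALK_k
  rw [Finset.sum_filter, Finset.sum_filter]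
  congr 1
  apply Finset.sum_congr rfl
  intro u _
  split_ifs
  · rw [DUALK_kap_comm]
  · rfl

/-- the algebraic identity -/
theorem DUALK_alg {J : ℕ} (nn : Fin J → ℕ) (V : Finset ℤ) (s : ℤ → ℝ)
    (hs : ∀ v ∈ V, s v * s v = 1) :
    4 * (∑ u ∈ V, ∑ v ∈ V, (1 + s u) / 2 * ((1 - s v) / 2) * DUALK_k nn u v) =
      (∑ u ∈ V, ∑ v ∈ V, DUALK_k nn u v) + (∑ v ∈ V, s v * balK nn V v) -
        (∑ u ∈ V, ∑ v ∈ V, kp nn (u - v) * s u * s v) / 2 + 3 * (J : ℝ) * V.card := by
  have h1 : (∑ u ∈ V, ∑ v ∈ V, kp nn (u - v) * s u * s v) =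
      2 * (∑ u ∈ V, ∑ v ∈ V, DUALK_k nn u v * s u * s v) + 6 * (J : ℝ) * V.card := by
    have e1 : ∀ u ∈ V, ∑ v ∈ V, kp nn (u - v) * s u * s v =
        (∑ v ∈ V, DUALK_k nn u v * s u * s v) + (∑ v ∈ V, DUALK_k nn v u * s v * s u) +
          6 * (J : ℝ) := by
      intro u hu
      have e2 : ∀ v ∈ V, kp nn (u - v) * s u * s v = DUALK_k nn u v * s u * s v +
          DUALK_k nn v u * s v * s u + if u = v then 6 * (J : ℝ) * (s u * s v) else 0 := by
        intro v _
        rw [DUALK_kp_eq]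
        split_ifs <;> ring
      rw [Finset.sum_congr rfl e2, Finset.sum_add_distrib, Finset.sum_add_distrib,
        Finset.sum_ite_eq, if_pos hu, hs u hu, mul_one]
    rw [Finset.sum_congr rfl e1, Finset.sum_add_distrib, Finset.sum_add_distrib,
      Finset.sum_comm (f := fun u v => DUALK_k nn v u * s v * s u), Finset.sum_const, nsmul_eq_mul]
    ring
  have h2 : (∑ v ∈ V, s v * balK nn V v) = (∑ u ∈ V, ∑ v ∈ V, s u * DUALK_k nn u v) -
      ∑ u ∈ V, ∑ v ∈ V, s v * DUALK_k nn u v := by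
    rw [Finset.sum_comm (f := fun u v => s v * DUALK_k nn u v), ← Finset.sum_sub_distrib]
    apply Finset.sum_congr rfl
    intro v _
    rw [DUALK_bal, mul_sub, Finset.mul_sum, Finset.mul_sum]
  rw [h1, h2]
  have h3 : 4 * (∑ u ∈ V, ∑ v ∈ V, (1 + s u) / 2 * ((1 - s v) / 2) * DUALK_k nn u v) =
      (∑ u ∈ V, ∑ v ∈ V, DUALK_k nn u v) + ((∑ u ∈ V, ∑ v ∈ V, s u * DUALK_k nn u v) -
      ∑ u ∈ V, ∑ v ∈ V, s v * DUALK_k nn u v) -
        (∑ u ∈ V, ∑ v ∈ V, DUALK_k nn u v * s u * s v) := by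
    rw [Finset.mul_sum, ← Finset.sum_sub_distrib, ← Finset.sum_add_distrib,
      ← Finset.sum_sub_distrib]
    apply Finset.sum_congr rfl
    intro u _
    rw [Finset.mul_sum, ← Finset.sum_sub_distrib, ← Finset.sum_add_distrib,
      ← Finset.sum_sub_distrib]
    apply Finset.sum_congr rfl
    intro v _
    ring
  rw [h3]
  ring

/-- the dual bound for one sign vector -/
theorem DUALK_bound {J : ℕ} (nn : Fin J → ℕ) (V W : Finset ℤ) (g s : ℤ → ℝ) (hVW : V ⊆ W)
    (hpsd : ∀ x : ℤ → ℝ, 0 ≤ ∑ u ∈ W, ∑ v ∈ W, kp nn (u - v) * x u * x v)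
    (hs : ∀ v ∈ V, s v * s v = 1) (hs0 : ∀ v, v ∉ V → s v = 0) (hs1 : ∀ v, |s v| ≤ 1) :
    (∑ v ∈ V, s v * balK nn V v) - (∑ u ∈ V, ∑ v ∈ V, kp nn (u - v) * s u * s v) / 2 ≤
      (∑ u ∈ W, ∑ v ∈ W, kp nn (u - v) * g u * g v) / 2 +
        ∑ v ∈ V, |balK nn V v - ∑ u ∈ W, kp nn (u - v) * g u| := by
  -- extend the sums to W
  have h1 : (∑ u ∈ V, ∑ v ∈ V, kp nn (u - v) * s u * s v) =
      ∑ u ∈ W, ∑ v ∈ W, kp nn (u - v) * s u * s v := by
    rw [Finset.sum_subset hVW]
    · apply Finset.sum_congr rfl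
      intro u _
      apply Finset.sum_subset hVW
      intro v _ hv
      rw [hs0 v hv, mul_zero]
    · intro u _ hu
      apply Finset.sum_eq_zero
      intro v _
      rw [hs0 u hu, mul_zero, zero_mul]
  have h2 : (∑ v ∈ V, s v * ∑ u ∈ W, kp nn (u - v) * g u) =
      ∑ u ∈ W, ∑ v ∈ W, kp nn (u - v) * g u * s v := by
    rw [Finset.sum_subset hVW (f := fun v => s v * ∑ u ∈ W, kp nn (u - v) * g u)]
    · rw [Finset.sum_comm]
      apply Finset.sum_congr rfl
      intro v _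
      rw [Finset.mul_sum]
      apply Finset.sum_congr rfl
      intro u _
      ring
    · intro v _ hv
      rw [hs0 v hv, zero_mul]
  have h3 : (∑ v ∈ V, s v * balK nn V v) = (∑ v ∈ V, s v * ∑ u ∈ W, kp nn (u - v) * g u) +
      ∑ v ∈ V, s v * (balK nn V v - ∑ u ∈ W, kp nn (u - v) * g u) := by
    rw [← Finset.sum_add_distrib]
    apply Finset.sum_congr rfl
    intro v _
    ring
  have h4 : ∑ v ∈ V, s v * (balK nn V v - ∑ u ∈ W, kp nn (u - v) * g u) ≤
      ∑ v ∈ V, |balK nn V v - ∑ u ∈ W, kp nn (u - v) * g u| := by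
    apply Finset.sum_le_sum
    intro v _
    calc s v * (balK nn V v - ∑ u ∈ W, kp nn (u - v) * g u)
        ≤ |s v * (balK nn V v - ∑ u ∈ W, kp nn (u - v) * g u)| := le_abs_self _
      _ = |s v| * |balK nn V v - ∑ u ∈ W, kp nn (u - v) * g u| := abs_mul _ _
      _ ≤ 1 * |balK nn V v - ∑ u ∈ W, kp nn (u - v) * g u| :=
          mul_le_mul_of_nonneg_right (hs1 v) (abs_nonneg _)
      _ = _ := one_mul _
  have h5 := hpsd (fun v => s v - g v)
  have h6 : (∑ u ∈ W, ∑ v ∈ W, kp nn (u - v) * (s u - g u) * (s v - g v)) =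
      (∑ u ∈ W, ∑ v ∈ W, kp nn (u - v) * s u * s v) +
      (∑ u ∈ W, ∑ v ∈ W, kp nn (u - v) * g u * g v) -
      2 * (∑ u ∈ W, ∑ v ∈ W, kp nn (u - v) * g u * s v) := by
    have e1 : (∑ u ∈ W, ∑ v ∈ W, kp nn (u - v) * s u * g v) =
        ∑ u ∈ W, ∑ v ∈ W, kp nn (u - v) * g u * s v := by
      rw [Finset.sum_comm]
      apply Finset.sum_congr rfl
      intro v _
      apply Finset.sum_congr rfl
      intro u _
      rw [DUALK_kp_comm]
      ring
    have e2 : (∑ u ∈ W, ∑ v ∈ W, kp nn (u - v) * (s u - g u) * (s v - g v)) =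
      (∑ u ∈ W, ∑ v ∈ W, kp nn (u - v) * s u * s v) +
      (∑ u ∈ W, ∑ v ∈ W, kp nn (u - v) * g u * g v) -
      (∑ u ∈ W, ∑ v ∈ W, kp nn (u - v) * s u * g v) -
      (∑ u ∈ W, ∑ v ∈ W, kp nn (u - v) * g u * s v) := by
      simp only [← Finset.sum_add_distrib, ← Finset.sum_sub_distrib]
      apply Finset.sum_congr rfl
      intro u _
      apply Finset.sum_congr rfl
      intro v _
      ring
    rw [e2, e1]
    ring
  rw [h6] at h5
  rw [h1, h3, h2]
  linarith

theorem t_DUALK (h1 : S_PSDK) : S_DUALK := by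
  intro J nn hD V W g hVW
  classical
  have hpsd := h1 J nn hD W
  set e := V.orderIsoOfFin rfl with he
  obtain ⟨f, hf⟩ : ∃ f : Fin V.card → ℤ, ∀ i, f i = (e i : ℤ) := ⟨fun i => (e i : ℤ), fun _ => rfl⟩
  have hlt : ∀ i j, i < j ↔ f i < f j := by
    intro i j
    rw [hf, hf, ← e.lt_iff_lt]
    exact Subtype.coe_lt_coe.symm
  have hsum : ∀ F : ℤ → ℝ, ∑ i, F (f i) = ∑ v ∈ V, F v := by
    intro F
    rw [← Finset.sum_coe_sort V F, ← Equiv.sum_comp e.toEquiv (fun v : V => F v)]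
    apply Finset.sum_congr rfl
    intro i _
    rw [hf]
    rfl
  have hsum2 : ∀ F : ℤ → ℤ → ℝ, ∑ i, ∑ j, F (f i) (f j) = ∑ u ∈ V, ∑ v ∈ V, F u v := by
    intro F
    rw [← hsum (fun u => ∑ v ∈ V, F u v)]
    apply Finset.sum_congr rfl
    intro i _
    exact hsum (fun v => F (f i) v)
  obtain ⟨w, hw⟩ : ∃ w : WDigraph V.card, ∀ i j, w i j = DUALK_k nn (f i) (f j) :=
    ⟨fun i j => DUALK_k nn (f i) (f j), fun _ _ => rfl⟩
  have hT : totalWeight w = ∑ u ∈ V, ∑ v ∈ V, DUALK_k nn u v := by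
    unfold totalWeight
    rw [← hsum2]
    apply Finset.sum_congr rfl
    intro i _
    apply Finset.sum_congr rfl
    intro j _
    exact hw i j
  refine ⟨w, ⟨?_, ?_⟩, ?_, ?_⟩
  · -- acyclic
    intro v hv
    have h2 : ∀ a b, Relation.TransGen (fun a b => w a b ≠ 0) a b → a < b := by
      intro a b hab
      induction hab with
      | single h =>
        rw [hlt]
        by_contra hc
        apply h
        rw [hw]
        unfold DUALK_k
        rw [if_neg hc]
      | tail _ h ih =>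
        refine ih.trans ?_
        rw [hlt]
        by_contra hc
        apply h
        rw [hw]
        unfold DUALK_k
        rw [if_neg hc]
    exact lt_irrefl _ (h2 v v hv)
  · intro u v
    rw [hw]
    unfold DUALK_k
    split_ifs
    · exact DUALK_kap_nat _ _
    · exact ⟨0, by simp⟩
  · rw [hT]
    apply Finset.sum_congr rfl
    intro u _
    rw [Finset.sum_filter]
    rfl
  · unfold mac
    apply ciSup_le
    intro X
    -- the sign vector
    obtain ⟨s, hsd⟩ : ∃ s : ℤ → ℝ, ∀ v, s v =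
        if h : v ∈ V then (if e.symm ⟨v, h⟩ ∈ X then 1 else -1) else 0 :=
      ⟨fun v => if h : v ∈ V then (if e.symm ⟨v, h⟩ ∈ X then 1 else -1) else 0, fun _ => rfl⟩
    have hsf : ∀ i, s (f i) = if i ∈ X then 1 else -1 := by
      intro i
      have hi : f i ∈ V := by rw [hf]; exact (e i).2
      rw [hsd, dif_pos hi]
      have h3 : e.symm ⟨f i, hi⟩ = i := by
        rw [OrderIso.symm_apply_eq]
        exact Subtype.ext (hf i)
      rw [h3]
    have hs : ∀ v ∈ V, s v * s v = 1 := by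
      intro v hv
      rw [hsd, dif_pos hv]
      split_ifs <;> norm_num
    have hs0 : ∀ v, v ∉ V → s v = 0 := by
      intro v hv
      rw [hsd, dif_neg hv]
    have hs1 : ∀ v, |s v| ≤ 1 := by
      intro v
      rw [hsd]
      split_ifs <;> norm_num
    have hcut : cutWeight w X =
        ∑ u ∈ V, ∑ v ∈ V, (1 + s u) / 2 * ((1 - s v) / 2) * DUALK_k nn u v := by
      rw [← hsum2]
      unfold cutWeight
      have e1 : ∀ i, (∑ j, (1 + s (f i)) / 2 * ((1 - s (f j)) / 2) * DUALK_k nn (f i) (f j)) =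
          if i ∈ X then ∑ j ∈ Xᶜ, w i j else 0 := by
        intro i
        by_cases hi : i ∈ X
        · rw [if_pos hi, ← Finset.sum_subset (Finset.subset_univ Xᶜ)]
          · apply Finset.sum_congr rfl
            intro j hj
            rw [Finset.mem_compl] at hj
            rw [hsf, hsf, if_pos hi, if_neg hj, hw]
            norm_num
          · intro j _ hj
            rw [Finset.mem_compl, not_not] at hj
            rw [hsf j, if_pos hj]
            norm_num
        · rw [if_neg hi]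
          apply Finset.sum_eq_zero
          intro j _
          rw [hsf, if_neg hi]
          norm_num
      rw [Finset.sum_congr rfl (fun i _ => e1 i), Finset.sum_ite_mem, Finset.univ_inter]
    have h3 := DUALK_alg nn V s hs
    have h4 := DUALK_bound nn V W g s hVW hpsd hs hs0 hs1
    rw [← hcut, ← hT] at h3
    linarith

end Pool.Agent.H427R2.MU
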