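import Pool.Agent.H427R2.MU.St
import Pool.Agent.Helper883.Dicut.HMain

set_option autoImplicit false

/-! MU: from the family to every number of arcs (helper796). -/

namespace Pool.Agent.H427R2.MU

open Finset
open Pool.Agent.Helper883.Dicut

namespace MUALL

/-- There is an acyclic directed multigraph with `m` arcs and `mac ≤ x`. -/
def AC (m x : ℝ) : Prop := ∃ (n : ℕ) (w : WDigraph n), ClassM n w ∧ totalWeight w = m ∧ mac w ≤ x

section
variable {a b : ℕ} (w₁ : WDigraph a) (w₂ : WDigraph b)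

lemma left_path (v : Fin a) (y : Fin (a + b))
    (h : Relation.TransGen (fun x y => djoin w₁ w₂ x y ≠ 0) (Fin.castAdd b v) y) :
    ∃ y₁ : Fin a, y = Fin.castAdd b y₁ ∧ Relation.TransGen (fun x y => w₁ x y ≠ 0) v y₁ := by
  induction h with
  | single h1 =>
    rename_i y
    revert h1
    refine Fin.addCases (fun y => ?_) (fun y => ?_) y
    · intro h1
      rw [djoin_ll] at h1
      exact ⟨y, rfl, Relation.TransGen.single h1⟩
    · intro h1
      rw [djoin_lr] at h1
      exact absurd rfl h1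
  | tail _ h1 ih =>
    rename_i y z _
    obtain ⟨y₁, rfl, h2⟩ := ih
    revert h1
    refine Fin.addCases (fun z => ?_) (fun z => ?_) z
    · intro h1
      rw [djoin_ll] at h1
      exact ⟨z, rfl, h2.tail h1⟩
    · intro h1
      rw [djoin_lr] at h1
      exact absurd rfl h1

lemma right_path (v : Fin b) (y : Fin (a + b))
    (h : Relation.TransGen (fun x y => djoin w₁ w₂ x y ≠ 0) (Fin.natAdd a v) y) :
    ∃ y₁ : Fin b, y = Fin.natAdd a y₁ ∧ Relation.TransGen (fun x y => w₂ x y ≠ 0) v y₁ := by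
  induction h with
  | single h1 =>
    rename_i y
    revert h1
    refine Fin.addCases (fun y => ?_) (fun y => ?_) y
    · intro h1
      rw [djoin_rl] at h1
      exact absurd rfl h1
    · intro h1
      rw [djoin_rr] at h1
      exact ⟨y, rfl, Relation.TransGen.single h1⟩
  | tail _ h1 ih =>
    rename_i y z _
    obtain ⟨y₁, rfl, h2⟩ := ih
    revert h1
    refine Fin.addCases (fun z => ?_) (fun z => ?_) z
    · intro h1
      rw [djoin_rl] at h1
      exact absurd rfl h1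
    · intro h1
      rw [djoin_rr] at h1
      exact ⟨z, rfl, h2.tail h1⟩

lemma classM_djoin (h₁ : ClassM a w₁) (h₂ : ClassM b w₂) : ClassM (a + b) (djoin w₁ w₂) := by
  constructor
  · intro v
    refine Fin.addCases (fun v => ?_) (fun v => ?_) v
    · intro h
      obtain ⟨y, h3, h4⟩ := left_path w₁ w₂ v _ h
      have h5 : v = y := Fin.castAdd_injective a b h3
      rw [← h5] at h4
      exact h₁.1 v h4
    · intro h
      obtain ⟨y, h3, h4⟩ := right_path w₁ w₂ v _ h
      have h5 : v = y := Fin.natAdd_injective b a h3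
      rw [← h5] at h4
      exact h₂.1 v h4
  · intro i j
    refine Fin.addCases (fun i => ?_) (fun i => ?_) i
    · refine Fin.addCases (fun j => ?_) (fun j => ?_) j
      · rw [djoin_ll]; exact h₁.2 i j
      · rw [djoin_lr]; exact ⟨0, by simp⟩
    · refine Fin.addCases (fun j => ?_) (fun j => ?_) j
      · rw [djoin_rl]; exact ⟨0, by simp⟩
      · rw [djoin_rr]; exact h₂.2 i j

end

lemma AC.add {a b x y : ℝ} (h₁ : AC a x) (h₂ : AC b y) : AC (a + b) (x + y) := by
  obtain ⟨n₁, w₁, c₁, t₁, m₁⟩ := h₁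
  obtain ⟨n₂, w₂, c₂, t₂, m₂⟩ := h₂
  exact ⟨n₁ + n₂, djoin w₁ w₂, classM_djoin w₁ w₂ c₁ c₂, by rw [total_djoin, t₁, t₂],
    (mac_djoin _ _).trans (add_le_add m₁ m₂)⟩

lemma AC.mono {m x y : ℝ} (h : AC m x) (hxy : x ≤ y) : AC m y := by
  obtain ⟨n, w, c, t, m⟩ := h
  exact ⟨n, w, c, t, m.trans hxy⟩

lemma AC.nat (m : ℕ) : AC m m := by
  obtain ⟨n, w, o, p, t, hx⟩ := Ach.nat (P := PM) ⟨0, by simp⟩ ⟨1, by simp⟩ m
  exact ⟨n, w, ⟨Grid.acyclic_of_lt w o, fun i j => p i j⟩, t, hx⟩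

lemma hMulti_le' {m : ℕ} {x : ℝ} (h : AC m x) : (hMulti m : ℝ) ≤ x := by
  obtain ⟨n, w, hcl, t, hx⟩ := h
  have hmem : hMulti m ∈ {k : ℕ | ∀ (n : ℕ) (w : WDigraph n), ClassM n w → totalWeight w = m → (k : ℝ) ≤ mac w} := by
    apply Nat.sSup_mem
    · exact ⟨0, fun n w _ _ => by simpa using mac_nonneg' w⟩
    · obtain ⟨M, hM⟩ := mac_nat w hcl.2
      refine ⟨M, fun k hk => ?_⟩
      have := hk n w hcl t
      rw [hM] at this
      exact_mod_cast this
  exact (hmem n w hcl t).trans hx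

/-- the error function -/
noncomputable def LL (m : ℕ) : ℝ := (1 + Real.log m) ^ ((9 : ℝ) / 5)

lemma LL_one (m : ℕ) : 1 ≤ LL m := by
  unfold LL
  apply Real.one_le_rpow _ (by norm_num)
  have := Real.log_natCast_nonneg m
  linarith

lemma LL_mono {a b : ℕ} (h : a ≤ b) : LL a ≤ LL b := by
  unfold LL
  have h1 := Real.log_natCast_nonneg a
  apply Real.rpow_le_rpow (by linarith) _ (by norm_num)
  rcases Nat.eq_zero_or_pos a with h0 | h0
  · rw [h0]
    have := Real.log_natCast_nonneg b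
    simp only [Nat.cast_zero, Real.log_zero]
    linarith
  · have h2 : (0 : ℝ) < a := by exact_mod_cast h0
    have h3 : (a : ℝ) ≤ b := by exact_mod_cast h
    have := Real.log_le_log h2 h3
    linarith

/-- the size of the excess -/
lemma excess {c : ℝ} (hc : 1 ≤ c) (m k : ℕ) (hk : 1 ≤ k) (h : c * (k : ℝ) ^ 2 * 32 ^ k ≤ m) :
    (k : ℝ) ^ 3 * 8 ^ k ≤ (m : ℝ) ^ ((3 : ℝ) / 5) * LL m := by
  have hk0 : (0 : ℝ) < k := by exact_mod_cast hk
  have hk1 : (1 : ℝ) ≤ k := by exact_mod_cast hk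
  have h1 : (k : ℝ) ^ 2 * 32 ^ k ≤ m := by
    refine le_trans ?_ h
    rw [mul_assoc]
    exact le_mul_of_one_le_left (by positivity) hc
  have h2 : (k : ℝ) ^ ((6 : ℝ) / 5) * 8 ^ k ≤ (m : ℝ) ^ ((3 : ℝ) / 5) := by
    have h3 : ((k : ℝ) ^ 2 * 32 ^ k) ^ ((3 : ℝ) / 5) = (k : ℝ) ^ ((6 : ℝ) / 5) * 8 ^ k := by
      rw [Real.mul_rpow (by positivity) (by positivity)]
      congr 1
      · rw [← Real.rpow_natCast, ← Real.rpow_mul hk0.le]
        norm_num
      · rw [← Real.rpow_natCast, ← Real.rpow_mul (by norm_num), mul_comm,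
          Real.rpow_mul (by norm_num), Real.rpow_natCast]
        congr 1
        rw [show (32 : ℝ) = 2 ^ (5 : ℝ) by norm_num, ← Real.rpow_mul (by norm_num)]
        norm_num
    rw [← h3]
    exact Real.rpow_le_rpow (by positivity) h1 (by norm_num)
  have h4 : (k : ℝ) ^ ((9 : ℝ) / 5) ≤ LL m := by
    unfold LL
    apply Real.rpow_le_rpow hk0.le _ (by norm_num)
    have h5 : (32 : ℝ) ^ k ≤ m := by
      refine le_trans ?_ h1
      exact le_mul_of_one_le_left (by positivity) (one_le_pow₀ hk1)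
    have h6 : Real.log ((32 : ℝ) ^ k) ≤ Real.log m := Real.log_le_log (by positivity) h5
    rw [Real.log_pow] at h6
    have h7 : 1 ≤ Real.log 32 := by
      rw [show (32 : ℝ) = 2 ^ 5 by norm_num, Real.log_pow]
      have := Real.log_two_gt_d9
      push_cast
      linarith
    nlinarith
  have h8 : (k : ℝ) ^ 3 = (k : ℝ) ^ ((6 : ℝ) / 5) * (k : ℝ) ^ ((9 : ℝ) / 5) := by
    rw [← Real.rpow_add hk0, ← Real.rpow_natCast]
    norm_num
  calc (k : ℝ) ^ 3 * 8 ^ k = ((k : ℝ) ^ ((6 : ℝ) / 5) * 8 ^ k) * (k : ℝ) ^ ((9 : ℝ) / 5) := by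
        rw [h8]; ring
    _ ≤ (m : ℝ) ^ ((3 : ℝ) / 5) * LL m := by
        apply mul_le_mul h2 h4 (by positivity) (by positivity)

theorem fillM (c1 c2 K : ℝ) (hc1 : 0 < c1) (hc2 : 1 ≤ c2) (hK : 0 < K)
    (hfam : ∀ k : ℕ, 20 ≤ k → ∃ a : ℕ, c1 * (k : ℝ) ^ 2 * 32 ^ k ≤ a ∧
      (a : ℝ) ≤ c2 * (k : ℝ) ^ 2 * 32 ^ k ∧ AC a (a / 4 + K * (k : ℝ) ^ 3 * 8 ^ k)) :
    ∃ D : ℝ, 0 < D ∧ ∀ m : ℕ, AC m ((m : ℝ) / 4 + D * ((m : ℝ) ^ ((3 : ℝ) / 5) * LL m)) := by
  set B : ℝ := c2 * ((20 : ℕ) : ℝ) ^ 2 * 32 ^ 20 with hB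
  have hB0 : 0 < B := by positivity
  set D : ℝ := B + K * (128 * c2 / ((3 / 5) * c1)) with hD
  have hKc : 0 < K * (128 * c2 / ((3 / 5) * c1)) := by positivity
  have hD0 : 0 < D := by positivity
  refine ⟨D, hD0, fun m => ?_⟩
  induction m using Nat.strong_induction_on with
  | _ m ih =>
    have hL1 := LL_one m
    by_cases hsmall : (m : ℝ) < B
    · apply (AC.nat m).mono
      rcases Nat.eq_zero_or_pos m with h0 | h0
      · rw [h0]
        simp only [Nat.cast_zero, zero_div, zero_add]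
        have := LL_one 0
        positivity
      · have hm1 : (1 : ℝ) ≤ m := by exact_mod_cast h0
        have hmp : (1 : ℝ) ≤ (m : ℝ) ^ ((3 : ℝ) / 5) := Real.one_le_rpow hm1 (by norm_num)
        have h1 : (1 : ℝ) ≤ (m : ℝ) ^ ((3 : ℝ) / 5) * LL m := one_le_mul_of_one_le_of_one_le hmp hL1
        have h2 : B ≤ D * ((m : ℝ) ^ ((3 : ℝ) / 5) * LL m) := by
          calc B ≤ D := by linarith
            _ ≤ _ := le_mul_of_one_le_right hD0.le h1
        have h4 : (0 : ℝ) ≤ (m : ℝ) / 4 := by positivity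
        linarith
    · push Not at hsmall
      -- choose k
      have hex : ∃ k : ℕ, 20 ≤ k ∧ c2 * (k : ℝ) ^ 2 * 32 ^ k ≤ m ∧
          (m : ℝ) < c2 * ((k + 1 : ℕ) : ℝ) ^ 2 * 32 ^ (k + 1) := by
        classical
        set Q : ℕ → Prop := fun k => c2 * (k : ℝ) ^ 2 * 32 ^ k ≤ m with hQ
        have hQ1 : Q 20 := hsmall
        have hbig : ∀ k : ℕ, Q k → k ≤ m := by
          intro k hk
          have h3 : (k : ℝ) ≤ m := by
            rcases Nat.eq_zero_or_pos k with h0 | h0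
            · rw [h0]; simp
            · have hk1 : (1 : ℝ) ≤ k := by exact_mod_cast h0
              calc (k : ℝ) = 1 * ((k : ℝ) * 1) * 1 := by ring
                _ ≤ c2 * ((k : ℝ) * k) * 32 ^ k := by
                    gcongr
                    exact one_le_pow₀ (by norm_num)
                _ = c2 * (k : ℝ) ^ 2 * 32 ^ k := by ring
                _ ≤ m := hk
          exact_mod_cast h3
        have hg := Nat.findGreatest_spec (P := Q) (hbig 20 hQ1) hQ1
        have hge : 20 ≤ Nat.findGreatest Q m := Nat.le_findGreatest (hbig 20 hQ1) hQ1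
        refine ⟨Nat.findGreatest Q m, hge, hg, ?_⟩
        by_contra hc
        push Not at hc
        set g := Nat.findGreatest Q m with hgdef
        have hle : g + 1 ≤ m := hbig (g + 1) hc
        have : g + 1 ≤ Nat.findGreatest Q m := Nat.le_findGreatest hle hc
        omega
      obtain ⟨k, hk20, hk1, hk2⟩ := hex
      obtain ⟨a, ha1, ha2, ha3⟩ := hfam k hk20
      have hk0 : (0 : ℝ) < k := by
        have : 0 < k := by omega
        exact_mod_cast this
      have hk1' : (1 : ℝ) ≤ k := by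
        have : 1 ≤ k := by omega
        exact_mod_cast this
      have ham : a ≤ m := by
        have : (a : ℝ) ≤ m := ha2.trans hk1
        exact_mod_cast this
      have hapos : 1 ≤ a := by
        have : (0 : ℝ) < a := lt_of_lt_of_le (by positivity) ha1
        have : 0 < a := by exact_mod_cast this
        omega
      have hm0 : (0 : ℝ) < m := by linarith
      -- a is a positive proportion of m
      have hprop : c1 / (128 * c2) * m ≤ a := by
        have h3 : (m : ℝ) ≤ 128 * c2 * ((k : ℝ) ^ 2 * 32 ^ k) := by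
          refine hk2.le.trans ?_
          have h4 : ((k + 1 : ℕ) : ℝ) ≤ 2 * k := by push_cast; linarith
          calc c2 * ((k + 1 : ℕ) : ℝ) ^ 2 * 32 ^ (k + 1) ≤ c2 * (2 * (k : ℝ)) ^ 2 * 32 ^ (k + 1) := by
                gcongr
            _ = 128 * c2 * ((k : ℝ) ^ 2 * 32 ^ k) := by rw [pow_succ]; ring
        calc c1 / (128 * c2) * m ≤ c1 / (128 * c2) * (128 * c2 * ((k : ℝ) ^ 2 * 32 ^ k)) := by gcongr
          _ = c1 * (k : ℝ) ^ 2 * 32 ^ k := by field_simp
          _ ≤ a := ha1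
      have hexc := excess hc2 m k (by omega) hk1
      have hih := ih (m - a) (by omega)
      have hsum := AC.add ha3 hih
      have hcast : ((m - a : ℕ) : ℝ) = (m : ℝ) - a := by rw [Nat.cast_sub ham]
      have e1 : (a : ℝ) + ((m - a : ℕ) : ℝ) = m := by rw [hcast]; ring
      rw [e1] at hsum
      apply hsum.mono
      rw [hcast]
      have haR : (a : ℝ) ≤ m := by exact_mod_cast ham
      have hconc : ((m : ℝ) - a) ^ ((3 : ℝ) / 5) ≤ (m : ℝ) ^ ((3 : ℝ) / 5) * (1 - (3 / 5) * (a / m)) := by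
        have e2 : (m : ℝ) - a = m * (1 + -(a / m)) := by field_simp; ring
        have h6 : -1 ≤ -((a : ℝ) / m) := by
          rw [neg_le_neg_iff, div_le_one hm0]; exact haR
        rw [e2, Real.mul_rpow hm0.le (by linarith)]
        apply mul_le_mul_of_nonneg_left _ (by positivity)
        have := rpow_one_add_le_one_add_mul_self h6 (show (0 : ℝ) ≤ 3 / 5 by norm_num)
          (show (3 : ℝ) / 5 ≤ 1 by norm_num)
        calc _ ≤ 1 + (3 / 5) * -((a : ℝ) / m) := this
          _ = _ := by ring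
      have hfrac : c1 / (128 * c2) ≤ (a : ℝ) / m := by
        rw [le_div_iff₀ hm0]; exact hprop
      have hX0 : 0 ≤ (m : ℝ) ^ ((3 : ℝ) / 5) * LL m := by positivity
      have hkey : K * ((m : ℝ) ^ ((3 : ℝ) / 5) * LL m) ≤
          D * ((3 / 5) * (a / m) * ((m : ℝ) ^ ((3 : ℝ) / 5) * LL m)) := by
        calc K * ((m : ℝ) ^ ((3 : ℝ) / 5) * LL m)
            = (K * (128 * c2 / ((3 / 5) * c1))) * ((3 / 5) * (c1 / (128 * c2)) * ((m : ℝ) ^ ((3 : ℝ) / 5) * LL m)) := by
              field_simp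
          _ ≤ D * ((3 / 5) * (a / m) * ((m : ℝ) ^ ((3 : ℝ) / 5) * LL m)) := by
              apply mul_le_mul
              · linarith
              · gcongr
              · positivity
              · linarith
      have hLL : ((m : ℝ) - a) ^ ((3 : ℝ) / 5) * LL (m - a) ≤
          (m : ℝ) ^ ((3 : ℝ) / 5) * (1 - (3 / 5) * (a / m)) * LL m := by
        have h0 : 0 ≤ ((m : ℝ) - a) ^ ((3 : ℝ) / 5) := Real.rpow_nonneg (by linarith) _
        have h1 : LL (m - a) ≤ LL m := LL_mono (Nat.sub_le _ _)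
        have h2 := LL_one (m - a)
        calc ((m : ℝ) - a) ^ ((3 : ℝ) / 5) * LL (m - a) ≤ ((m : ℝ) - a) ^ ((3 : ℝ) / 5) * LL m := by
              gcongr
          _ ≤ _ := by
              apply mul_le_mul_of_nonneg_right hconc (by linarith)
      have h9 := mul_le_mul_of_nonneg_left hLL hD0.le
      have h10 := mul_le_mul_of_nonneg_left hexc hK.le
      have h11 : D * ((m : ℝ) ^ ((3 : ℝ) / 5) * (1 - (3 / 5) * (a / m)) * LL m) =
          D * ((m : ℝ) ^ ((3 : ℝ) / 5) * LL m) - D * ((3 / 5) * (a / m) * ((m : ℝ) ^ ((3 : ℝ) / 5) * LL m)) := by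
        ring
      rw [h11] at h9
      have h12 : K * (k : ℝ) ^ 3 * 8 ^ k = K * ((k : ℝ) ^ 3 * 8 ^ k) := by ring
      rw [h12]
      linarith

end MUALL

open MUALL

theorem t_MUALL (h1 : S_MUK) : S_MUALL := by
  obtain ⟨c1, c2, K, hc1, hc2, hK, hfam⟩ := h1
  obtain ⟨D, hD, h⟩ := fillM c1 (max c2 1) K hc1 (le_max_right _ _) hK (by
    intro k hk
    obtain ⟨n, w, hcl, h1, h2, h3⟩ := hfam k hk
    obtain ⟨a, ha⟩ := total_nat w hcl.2
    rw [ha] at h1 h2 h3
    refine ⟨a, h1, h2.trans ?_, n, w, hcl, ha, h3⟩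
    have : c2 ≤ max c2 1 := le_max_left _ _
    gcongr)
  refine ⟨D * 3 ^ ((9 : ℝ) / 5), by positivity, fun m hm => ?_⟩
  refine (hMulti_le' (h m)).trans ?_
  have hm2 : (2 : ℝ) ≤ m := by exact_mod_cast hm
  have hlog : 0.69 ≤ Real.log m := by
    have h4 : Real.log 2 ≤ Real.log m := Real.log_le_log (by norm_num) hm2
    have := Real.log_two_gt_d9
    linarith
  have h5 : LL m ≤ 3 ^ ((9 : ℝ) / 5) * Real.log m ^ ((9 : ℝ) / 5) := by
    unfold LL
    rw [← Real.mul_rpow (by norm_num) (by linarith)]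
    apply Real.rpow_le_rpow (by linarith) (by linarith) (by norm_num)
  have h6 : D * ((m : ℝ) ^ ((3 : ℝ) / 5) * LL m) ≤
      D * ((m : ℝ) ^ ((3 : ℝ) / 5) * (3 ^ ((9 : ℝ) / 5) * Real.log m ^ ((9 : ℝ) / 5))) := by
    gcongr
  have h7 : D * ((m : ℝ) ^ ((3 : ℝ) / 5) * (3 ^ ((9 : ℝ) / 5) * Real.log m ^ ((9 : ℝ) / 5))) =
      D * 3 ^ ((9 : ℝ) / 5) * (m : ℝ) ^ ((3 : ℝ) / 5) * Real.log m ^ ((9 : ℝ) / 5) := by ring
  linarith

end Pool.Agent.H427R2.MU
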