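import Pool.Agent.H427R2.MU.St
set_option autoImplicit false
namespace Pool.Agent.H427R2.MU
open Finset
open Pool.Agent.Helper883.Dicut

theorem M5_VL_card (P : ℕ) (hP : 1 ≤ P) : ∀ x : ℕ, x ≤ P →
    (((VL P).filter (fun v => v ≤ (x : ℤ))).card : ℤ) = (x : ℤ) ^ 3 / (3 * (P : ℤ) ^ 2) := by
  intro x
  induction x with
  | zero =>
    intro _
    have h : (VL P).filter (fun v => v ≤ ((0 : ℕ) : ℤ)) = ∅ := by
      rw [Finset.filter_eq_empty_iff]
      intro v hv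
      unfold VL at hv
      rw [Finset.mem_filter, Finset.mem_Icc] at hv
      push_cast
      omega
    rw [h]
    simp
  | succ x ih =>
    intro hx
    have ih := ih (by omega)
    have hP0 : (0 : ℤ) < 3 * (P : ℤ) ^ 2 := by
      have : (0 : ℤ) < P := by exact_mod_cast hP
      positivity
    have hmono : (x : ℤ) ^ 3 / (3 * (P : ℤ) ^ 2) ≤ ((x : ℤ) + 1) ^ 3 / (3 * (P : ℤ) ^ 2) := by
      refine Int.ediv_le_ediv hP0 ?_
      have : (0 : ℤ) ≤ x := Int.natCast_nonneg x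
      nlinarith [sq_nonneg (x : ℤ)]
    have hstep : ((x : ℤ) + 1) ^ 3 / (3 * (P : ℤ) ^ 2) ≤ (x : ℤ) ^ 3 / (3 * (P : ℤ) ^ 2) + 1 := by
      have h1 : ((x : ℤ) + 1) ^ 3 ≤ (x : ℤ) ^ 3 + (3 * (P : ℤ) ^ 2) := by
        have h2 : (x : ℤ) + 1 ≤ P := by exact_mod_cast hx
        have h3 : (0 : ℤ) ≤ x := Int.natCast_nonneg x
        have h4 : ((x : ℤ) + 1) ^ 2 ≤ (P : ℤ) ^ 2 := by
          exact pow_le_pow_left₀ (by omega) h2 2
        nlinarith
      calc ((x : ℤ) + 1) ^ 3 / (3 * (P : ℤ) ^ 2)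
          ≤ ((x : ℤ) ^ 3 + (3 * (P : ℤ) ^ 2)) / (3 * (P : ℤ) ^ 2) := Int.ediv_le_ediv hP0 h1
        _ = (x : ℤ) ^ 3 / (3 * (P : ℤ) ^ 2) + 1 := Int.add_ediv_of_dvd_right (dvd_refl _) |>.trans
            (by rw [Int.ediv_self hP0.ne'])
    by_cases hm : (((x : ℤ) + 1) - 1) ^ 3 / (3 * (P : ℤ) ^ 2) < ((x : ℤ) + 1) ^ 3 / (3 * (P : ℤ) ^ 2)
    · have h5 : (VL P).filter (fun v => v ≤ ((x + 1 : ℕ) : ℤ)) =
          insert ((x : ℤ) + 1) ((VL P).filter (fun v => v ≤ (x : ℤ))) := by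
        ext v
        simp only [Finset.mem_insert, Finset.mem_filter]
        push_cast
        constructor
        · rintro ⟨h6, h7⟩
          by_cases h8 : v = (x : ℤ) + 1
          · exact Or.inl h8
          · exact Or.inr ⟨h6, by omega⟩
        · rintro (h6 | ⟨h6, h7⟩)
          · subst h6
            refine ⟨?_, le_refl _⟩
            unfold VL
            rw [Finset.mem_filter, Finset.mem_Icc]
            refine ⟨⟨by omega, by exact_mod_cast hx⟩, hm⟩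
          · exact ⟨h6, by omega⟩
      rw [h5, Finset.card_insert_of_notMem]
      · push_cast
        rw [ih]
        rw [add_sub_cancel_right] at hm
        omega
      · rw [Finset.mem_filter]
        rintro ⟨_, h6⟩
        omega
    · have h5 : (VL P).filter (fun v => v ≤ ((x + 1 : ℕ) : ℤ)) =
          ((VL P).filter (fun v => v ≤ (x : ℤ))) := by
        ext v
        simp only [Finset.mem_filter]
        push_cast
        constructor
        · rintro ⟨h6, h7⟩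
          refine ⟨h6, ?_⟩
          by_contra h8
          have h9 : v = (x : ℤ) + 1 := by omega
          subst h9
          unfold VL at h6
          rw [Finset.mem_filter] at h6
          exact hm h6.2
        · rintro ⟨h6, h7⟩
          exact ⟨h6, by omega⟩
      rw [h5, ih]
      push_cast
      rw [add_sub_cancel_right] at hm
      omega

/-- counting function -/
noncomputable def M5_G (P : ℕ) (x : ℤ) : ℝ := (((VV P).filter (fun u => u ≤ x)).card : ℝ)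

theorem M5_VL_bd {P : ℕ} {u : ℤ} (h : u ∈ VL P) : 1 ≤ u ∧ u ≤ P := by
  unfold VL at h
  rw [Finset.mem_filter, Finset.mem_Icc] at h
  exact h.1

theorem M5_mem {P : ℕ} {u : ℤ} : u ∈ VV P ↔ u ∈ VL P ∨ 2 * (P : ℤ) + 1 - u ∈ VL P := by
  unfold VV
  rw [Finset.mem_union, Finset.mem_image]
  constructor
  · rintro (h | ⟨v, h, rfl⟩)
    · exact Or.inl h
    · right
      have : 2 * (P : ℤ) + 1 - (2 * (P : ℤ) + 1 - v) = v := by ring
      rwa [this]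
  · rintro (h | h)
    · exact Or.inl h
    · exact Or.inr ⟨_, h, by ring⟩

theorem M5_refl {P : ℕ} {u : ℤ} (h : u ∈ VV P) : 2 * (P : ℤ) + 1 - u ∈ VV P := by
  rw [M5_mem] at h ⊢
  rcases h with h | h
  · right
    have : 2 * (P : ℤ) + 1 - (2 * (P : ℤ) + 1 - u) = u := by ring
    rwa [this]
  · exact Or.inl h

theorem M5_bd {P : ℕ} {u : ℤ} (h : u ∈ VV P) : 1 ≤ u ∧ u ≤ 2 * P := by
  rw [M5_mem] at h
  rcases h with h | h
  · have := M5_VL_bd h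
    omega
  · have := M5_VL_bd h
    omega

theorem M5_G_F (P : ℕ) (hP : 1 ≤ P) (x : ℤ) (h0 : 0 ≤ x) (hx : x ≤ P) :
    M5_G P x ≤ (x : ℝ) ^ 3 / (3 * (P : ℝ) ^ 2) ∧
      (x : ℝ) ^ 3 / (3 * (P : ℝ) ^ 2) - 1 ≤ M5_G P x := by
  obtain ⟨y, rfl⟩ := Int.eq_ofNat_of_zero_le h0
  have hy : y ≤ P := by exact_mod_cast hx
  have h1 := M5_VL_card P hP y hy
  have h2 : (VV P).filter (fun u => u ≤ (y : ℤ)) = (VL P).filter (fun u => u ≤ (y : ℤ)) := by
    ext u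
    rw [Finset.mem_filter, Finset.mem_filter, M5_mem]
    constructor
    · rintro ⟨h3 | h3, h4⟩
      · exact ⟨h3, h4⟩
      · have := M5_VL_bd h3
        omega
    · rintro ⟨h3, h4⟩
      exact ⟨Or.inl h3, h4⟩
  have h3 : M5_G P (y : ℤ) = (((y : ℤ) ^ 3 / (3 * (P : ℤ) ^ 2) : ℤ) : ℝ) := by
    unfold M5_G
    rw [h2, ← h1]
    push_cast
    rfl
  have hP0 : (0 : ℤ) < 3 * (P : ℤ) ^ 2 := by
    have : (0 : ℤ) < P := by exact_mod_cast hP
    positivity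
  have hP1 : (0 : ℝ) < 3 * (P : ℝ) ^ 2 := by exact_mod_cast hP0
  rw [h3]
  have h4 := Int.ediv_mul_le ((y : ℤ) ^ 3) hP0.ne'
  have h5 := Int.lt_ediv_add_one_mul_self ((y : ℤ) ^ 3) hP0
  have h4' : (((y : ℤ) ^ 3 / (3 * (P : ℤ) ^ 2) : ℤ) : ℝ) * (3 * (P : ℝ) ^ 2) ≤ (y : ℝ) ^ 3 := by
    exact_mod_cast h4
  have h5' : (y : ℝ) ^ 3 < ((((y : ℤ) ^ 3 / (3 * (P : ℤ) ^ 2) : ℤ) : ℝ) + 1) * (3 * (P : ℝ) ^ 2) := by
    exact_mod_cast h5
  constructor
  · rw [le_div_iff₀ hP1]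
    exact_mod_cast h4'
  · rw [sub_le_iff_le_add, div_le_iff₀ hP1]
    have : ((y : ℤ) : ℝ) = (y : ℝ) := by norm_cast
    rw [this]
    exact h5'.le

theorem M5_cnt (P : ℕ) (a b : ℤ) (hab : a ≤ b) :
    (((VV P).filter (fun u => a < u ∧ u ≤ b)).card : ℝ) = M5_G P b - M5_G P a := by
  have h := Finset.card_filter_add_card_filter_not (s := (VV P).filter (fun u => u ≤ b))
    (fun u => u ≤ a)
  rw [Finset.filter_filter, Finset.filter_filter] at h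
  have h1 : (VV P).filter (fun u => u ≤ b ∧ u ≤ a) = (VV P).filter (fun u => u ≤ a) := by
    refine Finset.filter_congr (fun u _ => ?_)
    constructor
    · exact fun h => h.2
    · exact fun h => ⟨by omega, h⟩
  have h2 : (VV P).filter (fun u => u ≤ b ∧ ¬ u ≤ a) =
      (VV P).filter (fun u => a < u ∧ u ≤ b) := by
    refine Finset.filter_congr (fun u _ => ?_)
    constructor
    · exact fun h => ⟨by omega, h.1⟩
    · exact fun h => ⟨h.2, by omega⟩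
  rw [h1, h2] at h
  unfold M5_G
  rw [← h]
  push_cast
  ring

theorem M5_G_mono (P : ℕ) (a b : ℤ) (hab : a ≤ b) : M5_G P a ≤ M5_G P b := by
  have h := M5_cnt P a b hab
  have h2 : (0 : ℝ) ≤ (((VV P).filter (fun u => a < u ∧ u ≤ b)).card : ℝ) := Nat.cast_nonneg _
  linarith

theorem M5_G_len (P : ℕ) (a b : ℤ) (hab : a ≤ b) : M5_G P b - M5_G P a ≤ (b : ℝ) - a := by
  rw [← M5_cnt P a b hab]
  have h1 : (VV P).filter (fun u => a < u ∧ u ≤ b) ⊆ Finset.Ioc a b := by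
    intro u hu
    rw [Finset.mem_filter] at hu
    rw [Finset.mem_Ioc]
    exact hu.2
  have h2 := Finset.card_le_card h1
  rw [Int.card_Ioc] at h2
  have h3 : (((b - a).toNat : ℕ) : ℝ) = (b : ℝ) - a := by
    have h4 : (((b - a).toNat : ℕ) : ℤ) = b - a := Int.toNat_of_nonneg (by omega)
    have h5 : ((((b - a).toNat : ℕ) : ℤ) : ℝ) = ((b - a : ℤ) : ℝ) := by rw [h4]
    push_cast at h5
    exact_mod_cast h5
  rw [← h3]
  exact_mod_cast h2

theorem M5_right (P : ℕ) {J : ℕ} (nn : Fin J → ℕ) (v : ℤ) :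
    (∑ u ∈ VV P with v < u, kap nn (u - v)) =
      ∑ l, (M5_G P (v + nn l) - M5_G P v) := by
  unfold kap
  rw [Finset.sum_comm]
  refine Finset.sum_congr rfl (fun l _ => ?_)
  rw [Finset.sum_boole, Finset.filter_filter, ← M5_cnt P v (v + nn l) (by omega)]
  congr 2
  refine Finset.filter_congr (fun u _ => ?_)
  constructor
  · rintro ⟨h1, h2⟩
    rw [abs_of_pos (by omega)] at h2
    exact ⟨h1, by omega⟩
  · rintro ⟨h1, h2⟩
    rw [abs_of_pos (by omega)]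
    exact ⟨h1, by omega⟩

theorem M5_left (P : ℕ) {J : ℕ} (nn : Fin J → ℕ) (v : ℤ) :
    (∑ u ∈ VV P with u < v, kap nn (u - v)) =
      ∑ l, (M5_G P (v - 1) - M5_G P (v - 1 - nn l)) := by
  unfold kap
  rw [Finset.sum_comm]
  refine Finset.sum_congr rfl (fun l _ => ?_)
  rw [Finset.sum_boole, Finset.filter_filter, ← M5_cnt P (v - 1 - nn l) (v - 1) (by omega)]
  congr 2
  refine Finset.filter_congr (fun u _ => ?_)
  constructor
  · rintro ⟨h1, h2⟩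
    rw [abs_of_neg (by omega)] at h2
    exact ⟨by omega, by omega⟩
  · rintro ⟨h1, h2⟩
    rw [abs_of_neg (by omega)]
    exact ⟨by omega, by omega⟩

theorem M5_bal (P : ℕ) {J : ℕ} (nn : Fin J → ℕ) (v : ℤ) :
    balK nn (VV P) v = ∑ l, ((M5_G P (v + nn l) - M5_G P v) -
      (M5_G P (v - 1) - M5_G P (v - 1 - nn l))) := by
  unfold balK
  rw [M5_right, M5_left, ← Finset.sum_sub_distrib]

theorem M5_bulk (P q : ℕ) (hP : 1 ≤ P) {J : ℕ} (nn : Fin J → ℕ) (hq : ∀ l, nn l < q) (v : ℤ)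
    (h1 : (q : ℤ) < v) (h2 : v ≤ (P : ℤ) - q) :
    |balK nn (VV P) v - (2 * (v : ℝ) - 1) / (P : ℝ) ^ 2 * ∑ l, ((nn l : ℝ) * ((nn l : ℝ) + 1))| ≤
      (2 : ℝ) * J := by
  rw [M5_bal, Finset.mul_sum, ← Finset.sum_sub_distrib]
  refine (Finset.abs_sum_le_sum_abs _ _).trans ?_
  have h3 : ∀ l ∈ (Finset.univ : Finset (Fin J)),
      |(M5_G P (v + nn l) - M5_G P v) - (M5_G P (v - 1) - M5_G P (v - 1 - nn l)) -
        (2 * (v : ℝ) - 1) / (P : ℝ) ^ 2 * ((nn l : ℝ) * ((nn l : ℝ) + 1))| ≤ 2 := by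
    intro l _
    have hl := hq l
    have hl' : ((nn l : ℕ) : ℤ) < q := by exact_mod_cast hl
    have a1 := M5_G_F P hP (v + nn l) (by omega) (by omega)
    have a2 := M5_G_F P hP v (by omega) (by omega)
    have a3 := M5_G_F P hP (v - 1) (by omega) (by omega)
    have a4 := M5_G_F P hP (v - 1 - nn l) (by omega) (by omega)
    have hP1 : (0 : ℝ) < P := by exact_mod_cast hP
    have e : (2 * (v : ℝ) - 1) / (P : ℝ) ^ 2 * ((nn l : ℝ) * ((nn l : ℝ) + 1)) =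
        ((v : ℝ) + nn l) ^ 3 / (3 * (P : ℝ) ^ 2) - (v : ℝ) ^ 3 / (3 * (P : ℝ) ^ 2) -
          (((v : ℝ) - 1) ^ 3 / (3 * (P : ℝ) ^ 2) -
            ((v : ℝ) - 1 - nn l) ^ 3 / (3 * (P : ℝ) ^ 2)) := by
      field_simp
      ring
    push_cast at a1 a2 a3 a4
    rw [e, abs_le]
    constructor <;> linarith [a1.1, a1.2, a2.1, a2.2, a3.1, a3.2, a4.1, a4.2]
  refine (Finset.sum_le_sum h3).trans ?_
  rw [Finset.sum_const, Finset.card_univ, Fintype.card_fin, nsmul_eq_mul, mul_comm]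

theorem M5_half (P q : ℕ) (h : 2 * q ≤ P) :
    M5_G P P - M5_G P ((P : ℤ) - 2 * q) ≤ M5_G P ((P : ℤ) + 2 * q) - M5_G P P := by
  rw [← M5_cnt P ((P : ℤ) - 2 * q) P (by omega), ← M5_cnt P P ((P : ℤ) + 2 * q) (by omega)]
  have h1 : ((VV P).filter (fun u => (P : ℤ) - 2 * q < u ∧ u ≤ P)).image
      (fun u => 2 * (P : ℤ) + 1 - u) ⊆
      (VV P).filter (fun u => (P : ℤ) < u ∧ u ≤ (P : ℤ) + 2 * q) := by
    intro w hw
    rw [Finset.mem_image] at hw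
    obtain ⟨u, hu, rfl⟩ := hw
    rw [Finset.mem_filter] at hu ⊢
    exact ⟨M5_refl hu.1, by omega, by omega⟩
  have h2 := Finset.card_le_card h1
  rw [Finset.card_image_of_injective _ (fun a b hab => by
    simp only [sub_right_inj] at hab
    exact hab)] at h2
  exact_mod_cast h2

theorem M5_tot (P q : ℕ) (hP : 1 ≤ P) (h : 2 * q ≤ P) :
    4 * (q : ℝ) - (M5_G P ((P : ℤ) + 2 * q) - M5_G P ((P : ℤ) - 2 * q)) ≤
      8 * (q : ℝ) ^ 2 / P + 2 := by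
  have h1 := M5_half P q h
  have a1 := M5_G_F P hP P (by omega) le_rfl
  have a2 := M5_G_F P hP ((P : ℤ) - 2 * q) (by omega) (by omega)
  have hP1 : (0 : ℝ) < P := by exact_mod_cast hP
  have hq0 : (0 : ℝ) ≤ q := Nat.cast_nonneg _
  push_cast at a1 a2
  have h2 : (P : ℝ) ^ 3 / (3 * (P : ℝ) ^ 2) - ((P : ℝ) - 2 * q) ^ 3 / (3 * (P : ℝ) ^ 2) ≥
      2 * q - 4 * (q : ℝ) ^ 2 / P := by
    have e : (P : ℝ) ^ 3 / (3 * (P : ℝ) ^ 2) - ((P : ℝ) - 2 * q) ^ 3 / (3 * (P : ℝ) ^ 2) =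
        2 * q - 4 * (q : ℝ) ^ 2 / P + 8 * (q : ℝ) ^ 3 / (3 * (P : ℝ) ^ 2) := by
      field_simp
      ring
    have h3 : 0 ≤ 8 * (q : ℝ) ^ 3 / (3 * (P : ℝ) ^ 2) := by positivity
    linarith
  have h4 : 8 * (q : ℝ) ^ 2 / P = 2 * (4 * (q : ℝ) ^ 2 / P) := by ring
  linarith [a1.1, a1.2, a2.1, a2.2]

theorem M5_centre (P q : ℕ) (hP : 1 ≤ P) (h : 2 * q ≤ P) {J : ℕ} (nn : Fin J → ℕ)
    (hq : ∀ l, nn l < q) (v : ℤ) (h1 : (P : ℤ) - q < v) (h2 : v ≤ (P : ℤ)) :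
    |balK nn (VV P) v| ≤ J * (8 * (q : ℝ) ^ 2 / P + 2) := by
  rw [M5_bal]
  refine (Finset.abs_sum_le_sum_abs _ _).trans ?_
  have ht := M5_tot P q hP h
  have h3 : ∀ l ∈ (Finset.univ : Finset (Fin J)),
      |(M5_G P (v + nn l) - M5_G P v) - (M5_G P (v - 1) - M5_G P (v - 1 - nn l))| ≤
        8 * (q : ℝ) ^ 2 / P + 2 := by
    intro l _
    have hl := hq l
    have hl' : ((nn l : ℕ) : ℤ) < q := by exact_mod_cast hl
    have b1 := M5_G_len P v (v + nn l) (by omega)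
    have b2 := M5_G_len P (v - 1 - nn l) (v - 1) (by omega)
    have c1 := M5_G_len P ((P : ℤ) - 2 * q) v (by omega)
    have c2 := M5_G_len P (v + nn l) ((P : ℤ) + 2 * q) (by omega)
    have c3 := M5_G_len P ((P : ℤ) - 2 * q) (v - 1 - nn l) (by omega)
    have c4 := M5_G_len P (v - 1) ((P : ℤ) + 2 * q) (by omega)
    push_cast at b1 b2 c1 c2 c3 c4
    rw [abs_le]
    constructor <;> linarith
  refine (Finset.sum_le_sum h3).trans ?_
  rw [Finset.sum_const, Finset.card_univ, Fintype.card_fin, nsmul_eq_mul]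

theorem M5_kap_nonneg {J : ℕ} (nn : Fin J → ℕ) (d : ℤ) : 0 ≤ kap nn d := by
  unfold kap
  refine Finset.sum_nonneg (fun l _ => ?_)
  split_ifs <;> norm_num

theorem M5_kp_nonneg {J : ℕ} (nn : Fin J → ℕ) (d : ℤ) : 0 ≤ kp nn d := by
  unfold kp
  split_ifs
  · positivity
  · exact M5_kap_nonneg nn d

theorem M5_kap_even {J : ℕ} (nn : Fin J → ℕ) (d : ℤ) : kap nn (-d) = kap nn d := by
  unfold kap
  rw [abs_neg]

theorem M5_kp_even {J : ℕ} (nn : Fin J → ℕ) (d : ℤ) : kp nn (-d) = kp nn d := by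
  unfold kp
  rw [M5_kap_even]
  by_cases h : d = 0
  · subst h
    simp
  · rw [if_neg (by omega), if_neg h]

theorem M5_kp_zero {J : ℕ} (nn : Fin J → ℕ) (q : ℕ) (hq1 : 1 ≤ q) (hq : ∀ l, nn l < q) (d : ℤ)
    (hd : (q : ℤ) ≤ |d|) : kp nn d = 0 := by
  unfold kp kap
  rw [if_neg]
  · refine Finset.sum_eq_zero (fun l _ => ?_)
    rw [if_neg]
    have hl : ((nn l : ℕ) : ℤ) < q := by exact_mod_cast hq l
    omega
  · intro h
    rw [h, abs_zero] at hd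
    omega

/-- the total of the kernel -/
noncomputable def M5_T {J : ℕ} (nn : Fin J → ℕ) (q : ℕ) : ℝ :=
  ∑ d ∈ Icc (-(q : ℤ)) q, kp nn d

theorem M5_T_ge {J : ℕ} (nn : Fin J → ℕ) (q : ℕ) (hq : ∀ l, nn l < q) :
    ∑ l, (nn l : ℝ) ≤ M5_T nn q := by
  have h1 : ∑ d ∈ Icc (1 : ℤ) q, kp nn d ≤ M5_T nn q := by
    unfold M5_T
    refine Finset.sum_le_sum_of_subset_of_nonneg ?_ (fun d _ _ => M5_kp_nonneg nn d)
    intro d hd
    rw [Finset.mem_Icc] at hd ⊢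
    omega
  refine le_trans (le_of_eq ?_) h1
  have h2 : ∑ d ∈ Icc (1 : ℤ) q, kp nn d = ∑ d ∈ Icc (1 : ℤ) q, kap nn d := by
    refine Finset.sum_congr rfl (fun d hd => ?_)
    rw [Finset.mem_Icc] at hd
    unfold kp
    rw [if_neg (by omega)]
  rw [h2]
  unfold kap
  rw [Finset.sum_comm]
  refine Finset.sum_congr rfl (fun l _ => ?_)
  rw [Finset.sum_boole]
  have h3 : (Icc (1 : ℤ) q).filter (fun d => |d| ≤ (nn l : ℤ)) = Icc (1 : ℤ) (nn l) := by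
    ext d
    rw [Finset.mem_filter, Finset.mem_Icc, Finset.mem_Icc]
    have hl : ((nn l : ℕ) : ℤ) < q := by exact_mod_cast hq l
    constructor
    · rintro ⟨⟨a, b⟩, c⟩
      rw [abs_of_pos (by omega)] at c
      exact ⟨a, c⟩
    · rintro ⟨a, b⟩
      rw [abs_of_pos (by omega)]
      exact ⟨⟨a, by omega⟩, b⟩
  rw [h3, Int.card_Icc]
  congr 1
  omega

theorem M5_shift {J : ℕ} (nn : Fin J → ℕ) (q : ℕ) (hq1 : 1 ≤ q) (hq : ∀ l, nn l < q)
    (W : Finset ℤ) (g : ℤ → ℝ) (hg : ∀ u, u ∉ W → g u = 0) (v : ℤ) :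
    ∑ u ∈ W, kp nn (u - v) * g u = ∑ d ∈ Icc (-(q : ℤ)) q, kp nn d * g (v + d) := by
  have h1 : ∑ d ∈ Icc (-(q : ℤ)) q, kp nn d * g (v + d) =
      ∑ u ∈ Icc (v - q) (v + q), kp nn (u - v) * g u := by
    refine Finset.sum_nbij' (fun d => v + d) (fun u => u - v) ?_ ?_ ?_ ?_ ?_
    · intro d hd
      rw [Finset.mem_Icc] at hd ⊢
      omega
    · intro d hd
      rw [Finset.mem_Icc] at hd ⊢
      omega
    · intro d _
      show v + d - v = d
      ring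
    · intro d _
      show v + (d - v) = d
      ring
    · intro d _
      show kp nn d * g (v + d) = kp nn (v + d - v) * g (v + d)
      rw [show v + d - v = d by ring]
  rw [h1]
  have h2 : ∑ u ∈ W, kp nn (u - v) * g u =
      ∑ u ∈ W ∪ Icc (v - q) (v + q), kp nn (u - v) * g u := by
    refine Finset.sum_subset Finset.subset_union_left (fun u _ hu => ?_)
    rw [hg u hu, mul_zero]
  have h3 : ∑ u ∈ Icc (v - q) (v + q), kp nn (u - v) * g u =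
      ∑ u ∈ W ∪ Icc (v - q) (v + q), kp nn (u - v) * g u := by
    refine Finset.sum_subset Finset.subset_union_right (fun u _ hu => ?_)
    rw [M5_kp_zero nn q hq1 hq, zero_mul]
    rw [Finset.mem_Icc] at hu
    rw [le_abs]
    omega
  rw [h2, h3]

theorem M5_odd {J : ℕ} (nn : Fin J → ℕ) (q : ℕ) :
    ∑ d ∈ Icc (-(q : ℤ)) q, kp nn d * (d : ℝ) = 0 := by
  have h1 : ∑ d ∈ Icc (-(q : ℤ)) q, kp nn d * (d : ℝ) =
      ∑ d ∈ Icc (-(q : ℤ)) q, -(kp nn d * (d : ℝ)) := by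
    refine Finset.sum_nbij' (fun d => -d) (fun d => -d) ?_ ?_ ?_ ?_ ?_
    · intro d hd
      rw [Finset.mem_Icc] at hd ⊢
      omega
    · intro d hd
      rw [Finset.mem_Icc] at hd ⊢
      omega
    · intro d _
      exact neg_neg d
    · intro d _
      exact neg_neg d
    · intro d _
      rw [M5_kp_even]
      push_cast
      ring
  rw [Finset.sum_neg_distrib] at h1
  linarith

/-- the test function -/
noncomputable def M5_g (P : ℕ) (β : ℝ) (u : ℤ) : ℝ :=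
  if 1 ≤ u ∧ u ≤ P then β * (u - 1 / 2)
  else if (P : ℤ) < u ∧ u ≤ 2 * P then -(β * (2 * P + 1 / 2 - u)) else 0

theorem M5_g_zero (P : ℕ) (β : ℝ) (u : ℤ) (hu : u ∉ Icc (1 : ℤ) (2 * P)) : M5_g P β u = 0 := by
  rw [Finset.mem_Icc] at hu
  unfold M5_g
  rw [if_neg (by omega), if_neg (by omega)]

theorem M5_g_abs (P : ℕ) (β : ℝ) (hβ : 0 ≤ β) (u : ℤ) : |M5_g P β u| ≤ β * P := by
  unfold M5_g
  split_ifs with h1 h2
  · have a1 : (1 : ℝ) ≤ u := by exact_mod_cast h1.1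
    have a2 : (u : ℝ) ≤ P := by exact_mod_cast h1.2
    rw [abs_of_nonneg (mul_nonneg hβ (by linarith))]
    exact mul_le_mul_of_nonneg_left (by linarith) hβ
  · have a1 : ((P : ℤ) : ℝ) + 1 ≤ u := by exact_mod_cast h2.1
    have a2 : (u : ℝ) ≤ 2 * P := by exact_mod_cast h2.2
    push_cast at a1
    rw [abs_neg, abs_of_nonneg (mul_nonneg hβ (by linarith))]
    exact mul_le_mul_of_nonneg_left (by linarith) hβ
  · rw [abs_zero]
    positivity

theorem M5_g_odd (P : ℕ) (β : ℝ) (u : ℤ) :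
    M5_g P β (2 * (P : ℤ) + 1 - u) = -M5_g P β u := by
  unfold M5_g
  by_cases h1 : 1 ≤ u ∧ u ≤ P
  · rw [if_neg (by omega), if_pos (by omega), if_pos h1]
    push_cast
    ring
  · by_cases h2 : (P : ℤ) < u ∧ u ≤ 2 * P
    · rw [if_pos (by omega), if_neg h1, if_pos h2]
      push_cast
      ring
    · rw [if_neg (by omega), if_neg (by omega), if_neg h1, if_neg h2, neg_zero]

/-- the convolution -/
noncomputable def M5_S {J : ℕ} (nn : Fin J → ℕ) (P : ℕ) (β : ℝ) (v : ℤ) : ℝ :=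
  ∑ u ∈ Icc (1 : ℤ) (2 * P), kp nn (u - v) * M5_g P β u

theorem M5_S_abs {J : ℕ} (nn : Fin J → ℕ) (P q : ℕ) (hq1 : 1 ≤ q) (hq : ∀ l, nn l < q) (β : ℝ)
    (hβ : 0 ≤ β) (v : ℤ) : |M5_S nn P β v| ≤ M5_T nn q * (β * P) := by
  unfold M5_S
  rw [M5_shift nn q hq1 hq _ _ (M5_g_zero P β) v]
  refine (Finset.abs_sum_le_sum_abs _ _).trans ?_
  unfold M5_T
  rw [Finset.sum_mul]
  refine Finset.sum_le_sum (fun d _ => ?_)
  rw [abs_mul, abs_of_nonneg (M5_kp_nonneg nn d)]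
  exact mul_le_mul_of_nonneg_left (M5_g_abs P β hβ _) (M5_kp_nonneg nn d)

theorem M5_S_bulk {J : ℕ} (nn : Fin J → ℕ) (P q : ℕ) (hq1 : 1 ≤ q) (hq : ∀ l, nn l < q) (β : ℝ)
    (v : ℤ) (h1 : (q : ℤ) < v) (h2 : v ≤ (P : ℤ) - q) :
    M5_S nn P β v = M5_T nn q * β * ((v : ℝ) - 1 / 2) := by
  unfold M5_S
  rw [M5_shift nn q hq1 hq _ _ (M5_g_zero P β) v]
  have h3 : ∀ d ∈ Icc (-(q : ℤ)) q, kp nn d * M5_g P β (v + d) =
      kp nn d * (β * ((v : ℝ) - 1 / 2)) + β * (kp nn d * (d : ℝ)) := by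
    intro d hd
    rw [Finset.mem_Icc] at hd
    unfold M5_g
    rw [if_pos (by omega)]
    push_cast
    ring
  rw [Finset.sum_congr rfl h3, Finset.sum_add_distrib, ← Finset.mul_sum, M5_odd,
    ← Finset.sum_mul]
  unfold M5_T
  ring

theorem M5_S_odd {J : ℕ} (nn : Fin J → ℕ) (P : ℕ) (β : ℝ) (v : ℤ) :
    M5_S nn P β (2 * (P : ℤ) + 1 - v) = -M5_S nn P β v := by
  unfold M5_S
  rw [← Finset.sum_neg_distrib]
  refine Finset.sum_nbij' (fun u => 2 * (P : ℤ) + 1 - u) (fun u => 2 * (P : ℤ) + 1 - u)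
    ?_ ?_ ?_ ?_ ?_
  · intro d hd
    rw [Finset.mem_Icc] at hd ⊢
    omega
  · intro d hd
    rw [Finset.mem_Icc] at hd ⊢
    omega
  · intro d _
    show 2 * (P : ℤ) + 1 - (2 * (P : ℤ) + 1 - d) = d
    ring
  · intro d _
    show 2 * (P : ℤ) + 1 - (2 * (P : ℤ) + 1 - d) = d
    ring
  · intro d _
    rw [M5_g_odd, show d - (2 * (P : ℤ) + 1 - v) = -((2 * (P : ℤ) + 1 - d) - v) by ring,
      M5_kp_even]
    ring

theorem M5_bal_odd {J : ℕ} (nn : Fin J → ℕ) (P : ℕ) (v : ℤ) :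
    balK nn (VV P) (2 * (P : ℤ) + 1 - v) = -balK nn (VV P) v := by
  unfold balK
  have h1 : (∑ u ∈ VV P with 2 * (P : ℤ) + 1 - v < u, kap nn (u - (2 * (P : ℤ) + 1 - v))) =
      ∑ u ∈ VV P with u < v, kap nn (u - v) := by
    refine Finset.sum_nbij' (fun u => 2 * (P : ℤ) + 1 - u) (fun u => 2 * (P : ℤ) + 1 - u)
      ?_ ?_ ?_ ?_ ?_
    · intro d hd
      rw [Finset.mem_filter] at hd ⊢
      exact ⟨M5_refl hd.1, by omega⟩
    · intro d hd
      rw [Finset.mem_filter] at hd ⊢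
      exact ⟨M5_refl hd.1, by omega⟩
    · intro d _
      show 2 * (P : ℤ) + 1 - (2 * (P : ℤ) + 1 - d) = d
      ring
    · intro d _
      show 2 * (P : ℤ) + 1 - (2 * (P : ℤ) + 1 - d) = d
      ring
    · intro d _
      rw [← M5_kap_even]
      congr 1
      ring
  have h2 : (∑ u ∈ VV P with u < 2 * (P : ℤ) + 1 - v, kap nn (u - (2 * (P : ℤ) + 1 - v))) =
      ∑ u ∈ VV P with v < u, kap nn (u - v) := by
    refine Finset.sum_nbij' (fun u => 2 * (P : ℤ) + 1 - u) (fun u => 2 * (P : ℤ) + 1 - u)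
      ?_ ?_ ?_ ?_ ?_
    · intro d hd
      rw [Finset.mem_filter] at hd ⊢
      exact ⟨M5_refl hd.1, by omega⟩
    · intro d hd
      rw [Finset.mem_filter] at hd ⊢
      exact ⟨M5_refl hd.1, by omega⟩
    · intro d _
      show 2 * (P : ℤ) + 1 - (2 * (P : ℤ) + 1 - d) = d
      ring
    · intro d _
      show 2 * (P : ℤ) + 1 - (2 * (P : ℤ) + 1 - d) = d
      ring
    · intro d _
      rw [← M5_kap_even]
      congr 1
      ring
  rw [h1, h2]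
  ring

theorem M5_Q {J : ℕ} (nn : Fin J → ℕ) (P q : ℕ) (hq1 : 1 ≤ q) (hq : ∀ l, nn l < q) (β : ℝ)
    (hβ : 0 ≤ β) :
    ∑ u ∈ Icc (1 : ℤ) (2 * P), ∑ v ∈ Icc (1 : ℤ) (2 * P),
      kp nn (u - v) * M5_g P β u * M5_g P β v ≤
      2 * P * (β * P) * (M5_T nn q * (β * P)) := by
  have h1 : ∀ u ∈ Icc (1 : ℤ) (2 * P), (∑ v ∈ Icc (1 : ℤ) (2 * P),
      kp nn (u - v) * M5_g P β u * M5_g P β v) ≤ (β * P) * (M5_T nn q * (β * P)) := by
    intro u _
    have h2 : (∑ v ∈ Icc (1 : ℤ) (2 * P), kp nn (u - v) * M5_g P β u * M5_g P β v) =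
        M5_g P β u * M5_S nn P β u := by
      unfold M5_S
      rw [Finset.mul_sum]
      refine Finset.sum_congr rfl (fun v _ => ?_)
      rw [← M5_kp_even nn (v - u), neg_sub]
      ring
    rw [h2]
    refine (le_abs_self _).trans ?_
    rw [abs_mul]
    exact mul_le_mul (M5_g_abs P β hβ u) (M5_S_abs nn P q hq1 hq β hβ u) (abs_nonneg _)
      (by positivity)
  refine (Finset.sum_le_sum h1).trans (le_of_eq ?_)
  rw [Finset.sum_const, Int.card_Icc, nsmul_eq_mul]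
  have : (2 * (P : ℤ) + 1 - 1).toNat = 2 * P := by omega
  rw [this]
  push_cast
  ring

theorem M5_VL_gt (P q : ℕ) (hP : 1 ≤ P) (hPq : P ^ 2 = q ^ 3) (v : ℤ) (hv : v ∈ VL P) :
    (q : ℤ) < v := by
  by_contra hcon
  have hcon : v ≤ q := not_lt.1 hcon
  have hb := M5_VL_bd hv
  have hP0 : (0 : ℤ) < (P : ℤ) ^ 2 := by
    have : (0 : ℤ) < P := by exact_mod_cast hP
    positivity
  unfold VL at hv
  rw [Finset.mem_filter] at hv
  have h1 : v ^ 3 / (3 * (P : ℤ) ^ 2) = 0 := by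
    have h3 : v ^ 3 ≤ (q : ℤ) ^ 3 := pow_le_pow_left₀ (by omega) hcon 3
    have h4 : (q : ℤ) ^ 3 = (P : ℤ) ^ 2 := by exact_mod_cast hPq.symm
    exact Int.ediv_eq_zero_of_lt (pow_nonneg (by omega) 3) (by linarith)
  have h2 : 0 ≤ (v - 1) ^ 3 / (3 * (P : ℤ) ^ 2) :=
    Int.ediv_nonneg (pow_nonneg (by omega) 3) (by positivity)
  rw [h1] at hv
  linarith [hv.2]

theorem M5_err_L (P q : ℕ) (hP : 1 ≤ P) (hq1 : 1 ≤ q) (hPq : P ^ 2 = q ^ 3) (h2q : 2 * q ≤ P)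
    {J : ℕ} (nn : Fin J → ℕ) (hq : ∀ l, nn l < q) (A β : ℝ)
    (hA : A = ∑ l, ((nn l : ℝ) * ((nn l : ℝ) + 1))) (hβ : 0 ≤ β)
    (hβT : M5_T nn q * β = 2 * A / (P : ℝ) ^ 2) (v : ℤ) (hv : v ∈ VL P) :
    |balK nn (VV P) v - M5_S nn P β v| ≤ 2 * (J : ℝ) +
      (if (P : ℤ) - q < v then J * (8 * (q : ℝ) ^ 2 / P + 2) + 2 * A / P else 0) := by
  have hP1 : (0 : ℝ) < P := by exact_mod_cast hP
  have hgt := M5_VL_gt P q hP hPq v hv
  have hbd := M5_VL_bd hv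
  split_ifs with hc
  · have h1 := M5_centre P q hP h2q nn hq v hc hbd.2
    have h2 := M5_S_abs nn P q hq1 hq β hβ v
    have h3 : M5_T nn q * (β * P) = 2 * A / P := by
      rw [← mul_assoc, hβT]
      field_simp
    rw [h3] at h2
    have h4 := abs_sub (balK nn (VV P) v) (M5_S nn P β v)
    have h5 : (0 : ℝ) ≤ J := Nat.cast_nonneg J
    linarith
  · have h1 := M5_bulk P q hP nn hq v hgt (by omega)
    rw [M5_S_bulk nn P q hq1 hq β v hgt (by omega), hβT, add_zero]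
    rw [← hA] at h1
    have h2 : 2 * A / (P : ℝ) ^ 2 * ((v : ℝ) - 1 / 2) = (2 * (v : ℝ) - 1) / (P : ℝ) ^ 2 * A := by
      field_simp
    rw [h2]
    exact h1

theorem M5_card_le (a b : ℤ) (n : ℕ) (h : b - a = n) (s : Finset ℤ)
    (hs : ∀ u ∈ s, a < u ∧ u ≤ b) : (s.card : ℝ) ≤ n := by
  have h1 : s ⊆ Finset.Ioc a b := fun u hu => Finset.mem_Ioc.2 (hs u hu)
  have h2 := Finset.card_le_card h1
  rw [Int.card_Ioc, h] at h2
  exact_mod_cast h2

theorem M5_err_sum (P q : ℕ) (hP : 1 ≤ P) (hq1 : 1 ≤ q) (hPq : P ^ 2 = q ^ 3) (h2q : 2 * q ≤ P)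
    {J : ℕ} (nn : Fin J → ℕ) (hq : ∀ l, nn l < q) (A β : ℝ)
    (hA : A = ∑ l, ((nn l : ℝ) * ((nn l : ℝ) + 1))) (hβ : 0 ≤ β)
    (hβT : M5_T nn q * β = 2 * A / (P : ℝ) ^ 2) :
    ∑ v ∈ VV P, |balK nn (VV P) v - M5_S nn P β v| ≤
      2 * (P * (2 * (J : ℝ)) + q * (J * (8 * (q : ℝ) ^ 2 / P + 2) + 2 * A / P)) := by
  have hP1 : (0 : ℝ) < P := by exact_mod_cast hP
  have hA0 : 0 ≤ A := by
    rw [hA]
    exact Finset.sum_nonneg (fun l _ => by positivity)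
  have hJ0 : (0 : ℝ) ≤ J := Nat.cast_nonneg J
  have hL : ∑ v ∈ VL P, |balK nn (VV P) v - M5_S nn P β v| ≤
      P * (2 * (J : ℝ)) + q * (J * (8 * (q : ℝ) ^ 2 / P + 2) + 2 * A / P) := by
    refine (Finset.sum_le_sum (fun v hv =>
      M5_err_L P q hP hq1 hPq h2q nn hq A β hA hβ hβT v hv)).trans ?_
    rw [Finset.sum_add_distrib, Finset.sum_const, nsmul_eq_mul, ← Finset.sum_filter,
      Finset.sum_const, nsmul_eq_mul]
    refine add_le_add ?_ ?_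
    · refine mul_le_mul_of_nonneg_right ?_ (by positivity)
      exact M5_card_le 0 P P (by ring) _ (fun u hu => by
        have := M5_VL_bd hu
        omega)
    · refine mul_le_mul_of_nonneg_right ?_ (by positivity)
      exact M5_card_le ((P : ℤ) - q) P q (by ring) _ (fun u hu => by
        rw [Finset.mem_filter] at hu
        have := M5_VL_bd hu.1
        omega)
  have hR : ∑ v ∈ (VL P).image (fun v => 2 * (P : ℤ) + 1 - v),
      |balK nn (VV P) v - M5_S nn P β v| = ∑ v ∈ VL P, |balK nn (VV P) v - M5_S nn P β v| := by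
    rw [Finset.sum_image]
    · refine Finset.sum_congr rfl (fun v _ => ?_)
      rw [M5_bal_odd, M5_S_odd, ← abs_neg]
      congr 1
      ring
    · intro a _ b _ hab
      simp only [sub_right_inj] at hab
      exact hab
  have hU := Finset.sum_union_inter (s₁ := VL P)
    (s₂ := (VL P).image (fun v => 2 * (P : ℤ) + 1 - v))
    (f := fun v => |balK nn (VV P) v - M5_S nn P β v|)
  have h0 : 0 ≤ ∑ v ∈ VL P ∩ (VL P).image (fun v => 2 * (P : ℤ) + 1 - v),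
      |balK nn (VV P) v - M5_S nn P β v| := Finset.sum_nonneg (fun _ _ => abs_nonneg _)
  have hV : VV P = VL P ∪ (VL P).image (fun v => 2 * (P : ℤ) + 1 - v) := rfl
  have hE : ∑ v ∈ VV P, |balK nn (VV P) v - M5_S nn P β v| =
      ∑ v ∈ VL P ∪ (VL P).image (fun v => 2 * (P : ℤ) + 1 - v),
        |balK nn (VV P) v - M5_S nn P β v| := Finset.sum_congr hV (fun _ _ => rfl)
  rw [hE]
  rw [hR] at hU
  linarith

theorem M5_card_VV (P : ℕ) : ((VV P).card : ℝ) ≤ 2 * P := by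
  have h := M5_card_le 0 (2 * P) (2 * P) (by push_cast; ring) (VV P) (fun u hu => by
    have := M5_bd hu
    omega)
  push_cast at h
  exact h

theorem M5_w_up (P : ℕ) {J : ℕ} (nn : Fin J → ℕ) :
    ∑ u ∈ VV P, ∑ v ∈ VV P with u < v, kap nn (v - u) ≤ 2 * P * ∑ l, (nn l : ℝ) := by
  have h1 : ∀ u ∈ VV P, (∑ v ∈ VV P with u < v, kap nn (v - u)) ≤ ∑ l, (nn l : ℝ) := by
    intro u _
    rw [M5_right]
    refine Finset.sum_le_sum (fun l _ => ?_)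
    have h2 := M5_G_len P u (u + nn l) (by omega)
    push_cast at h2
    linarith
  refine (Finset.sum_le_sum h1).trans ?_
  rw [Finset.sum_const, nsmul_eq_mul]
  exact mul_le_mul_of_nonneg_right (M5_card_VV P)
    (Finset.sum_nonneg (fun l _ => Nat.cast_nonneg _))

theorem M5_w_lo (P q P' : ℕ) (hP : 1 ≤ P) (hq1 : 1 ≤ q) (hPP : P = 2 * P') (hqP : 48 * q ≤ P)
    {J : ℕ} (nn : Fin J → ℕ) (hq : ∀ l, nn l < q) (hs : (J : ℝ) ≤ (∑ l, (nn l : ℝ)) / 4) :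
    (P : ℝ) / 4 * ((∑ l, (nn l : ℝ)) / 4 - J) ≤
      ∑ u ∈ VV P, ∑ v ∈ VV P with u < v, kap nn (v - u) := by
  have hP1 : (0 : ℝ) < P := by exact_mod_cast hP
  have hPr : (P : ℝ) = 2 * P' := by exact_mod_cast hPP
  have hq1r : (1 : ℝ) ≤ q := by exact_mod_cast hq1
  have hqPr : 48 * (q : ℝ) ≤ P := by exact_mod_cast hqP
  have h1 : ∑ u ∈ (VV P).filter (fun u => (P' : ℤ) < u ∧ u ≤ (P : ℤ) - q),
      (∑ v ∈ VV P with u < v, kap nn (v - u)) ≤
      ∑ u ∈ VV P, ∑ v ∈ VV P with u < v, kap nn (v - u) := by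
    refine Finset.sum_le_sum_of_subset_of_nonneg (Finset.filter_subset _ _) (fun u _ _ => ?_)
    exact Finset.sum_nonneg (fun v _ => M5_kap_nonneg nn _)
  have h2 : ∀ u ∈ (VV P).filter (fun u => (P' : ℤ) < u ∧ u ≤ (P : ℤ) - q),
      (∑ l, (nn l : ℝ)) / 4 - J ≤ (∑ v ∈ VV P with u < v, kap nn (v - u)) := by
    intro u hu
    rw [Finset.mem_filter] at hu
    obtain ⟨hu0, hu1, hu2⟩ := hu
    rw [M5_right]
    have h3 : (∑ l, (nn l : ℝ)) / 4 - J = ∑ l : Fin J, ((nn l : ℝ) / 4 - 1) := by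
      rw [Finset.sum_sub_distrib, Finset.sum_div, Finset.sum_const, Finset.card_univ,
        Fintype.card_fin, nsmul_eq_mul, mul_one]
    rw [h3]
    refine Finset.sum_le_sum (fun l _ => ?_)
    have hl' : ((nn l : ℕ) : ℤ) < q := by exact_mod_cast hq l
    have a1 := M5_G_F P hP (u + nn l) (by omega) (by omega)
    have a2 := M5_G_F P hP u (by omega) (by omega)
    push_cast at a1 a2
    have hu1' : (P' : ℝ) ≤ u := by
      have : (P' : ℤ) ≤ u := hu1.le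
      exact_mod_cast this
    have hn0 : (0 : ℝ) ≤ nn l := Nat.cast_nonneg _
    have hu0' : (0 : ℝ) ≤ u := le_trans (Nat.cast_nonneg _) hu1'
    have h4 : (nn l : ℝ) / 4 ≤ ((u : ℝ) + nn l) ^ 3 / (3 * (P : ℝ) ^ 2) -
        (u : ℝ) ^ 3 / (3 * (P : ℝ) ^ 2) := by
      rw [← sub_div, le_div_iff₀ (by positivity)]
      have h5 : (P : ℝ) ^ 2 ≤ 4 * (u : ℝ) ^ 2 := by
        rw [hPr]
        nlinarith [Nat.cast_nonneg (α := ℝ) P']
      have h6 : 0 ≤ (nn l : ℝ) ^ 2 * u := by positivity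
      have h7 : 0 ≤ (nn l : ℝ) ^ 3 := by positivity
      nlinarith [mul_le_mul_of_nonneg_left h5 hn0]
    linarith [a1.2, a2.1]
  have h3 : (P : ℝ) / 4 ≤ (((VV P).filter
      (fun u => (P' : ℤ) < u ∧ u ≤ (P : ℤ) - q)).card : ℝ) := by
    rw [M5_cnt P P' ((P : ℤ) - q) (by omega)]
    have a1 := M5_G_F P hP ((P : ℤ) - q) (by omega) (by omega)
    have a2 := M5_G_F P hP (P' : ℤ) (by omega) (by omega)
    push_cast at a1 a2
    have h4 : (P' : ℝ) ^ 3 / (3 * (P : ℝ) ^ 2) = P / 24 := by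
      rw [div_eq_div_iff (by positivity) (by norm_num), hPr]
      ring
    have h5 : (P : ℝ) / 3 - q ≤ ((P : ℝ) - q) ^ 3 / (3 * (P : ℝ) ^ 2) := by
      rw [le_div_iff₀ (by positivity)]
      have h6 : 0 ≤ (q : ℝ) ^ 2 * (3 * P - q) := by
        refine mul_nonneg (by positivity) (by linarith)
      nlinarith
    linarith [a1.2, a2.1]
  refine le_trans ?_ h1
  refine le_trans ?_ (Finset.card_nsmul_le_sum _ _ _ h2)
  rw [nsmul_eq_mul]
  exact mul_le_mul_of_nonneg_right h3 (by linarith)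

theorem M5_arith (κ J P q A T β Q tw err mac' C : ℝ) (hκ : 0 < κ) (hP : 0 < P) (hq : 0 < q)
    (hJ : 0 ≤ J) (hT : 2000 * κ * q ≤ T) (hA0 : 0 ≤ A) (hA : A ≤ 16000 * κ * q ^ 2)
    (hβ : β = 2 * A / (P ^ 2 * T)) (hPq : P ^ 2 = q ^ 3) (hqP : q ≤ P)
    (hQ : Q ≤ 2 * P * (β * P) * (T * (β * P))) (hC : C ≤ 2 * P)
    (herr : err ≤ 2 * (P * (2 * J) + q * (J * (8 * q ^ 2 / P + 2) + 2 * A / P)))
    (hmac : mac' ≤ tw / 4 + Q / 8 + 3 * J * C / 4 + err / 4) :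
    mac' ≤ tw / 4 + (15 / 2 * J + 144000 * κ) * P := by
  have hT0 : 0 < T := lt_of_lt_of_le (by positivity) hT
  have hQ1 : Q ≤ 1024000 * κ * P := by
    refine hQ.trans ?_
    have e1 : 2 * P * (β * P) * (T * (β * P)) = 8 * A ^ 2 / (P * T) := by
      rw [hβ]
      field_simp
      ring
    rw [e1, div_le_iff₀ (by positivity)]
    have e2 : A ^ 2 ≤ (16000 * κ * q ^ 2) ^ 2 := pow_le_pow_left₀ hA0 hA 2
    have e3 : 1024000 * κ * P * (P * T) = 1024000 * κ * q ^ 3 * T := by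
      rw [← hPq]
      ring
    rw [e3]
    have e4 : 1024000 * κ * q ^ 3 * (2000 * κ * q) ≤ 1024000 * κ * q ^ 3 * T :=
      mul_le_mul_of_nonneg_left hT (by positivity)
    nlinarith
  have h1 : q * (8 * q ^ 2 / P) = 8 * P := by
    rw [mul_div_assoc', div_eq_iff hP.ne']
    nlinarith
  have h2 : q * (2 * A / P) ≤ 32000 * κ * P := by
    rw [mul_div_assoc', div_le_iff₀ hP]
    have e5 : 32000 * κ * P * P = 32000 * κ * q ^ 3 := by
      rw [← hPq]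
      ring
    rw [e5]
    have e6 : q * A ≤ q * (16000 * κ * q ^ 2) := mul_le_mul_of_nonneg_left hA hq.le
    nlinarith
  have h3 : q * (J * (8 * q ^ 2 / P + 2) + 2 * A / P) =
      J * (q * (8 * q ^ 2 / P)) + 2 * J * q + q * (2 * A / P) := by ring
  rw [h3, h1] at herr
  have h4 : J * q ≤ J * P := mul_le_mul_of_nonneg_left hqP hJ
  have h5 : J * C ≤ J * (2 * P) := mul_le_mul_of_nonneg_left hC hJ
  nlinarith

theorem t_MUK (h1 : S_BK) (h2 : S_DUALK) : S_MUK := by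
  refine ⟨62, 16000, 204000, by norm_num, by norm_num, by norm_num, fun k hk => ?_⟩
  obtain ⟨nn, hn, hs1u, hs1l, hs2, hD⟩ := h1 (2 * k) (by omega)
  have hq : ∀ l, nn l < 4 ^ k := by
    intro l
    have h := (hn l).2
    rwa [pow_mul, show (2 : ℕ) ^ 2 = 4 by norm_num] at h
  have hq1 : 1 ≤ 4 ^ k := Nat.one_le_pow _ _ (by norm_num)
  have hP : 1 ≤ 8 ^ k := Nat.one_le_pow _ _ (by norm_num)
  have hPq : ((8 : ℕ) ^ k) ^ 2 = (4 ^ k) ^ 3 := by
    rw [← pow_mul, ← pow_mul, mul_comm k 2, mul_comm k 3, pow_mul, pow_mul]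
    norm_num
  have h2k : (2 : ℕ) ^ 20 ≤ 2 ^ k := Nat.pow_le_pow_right (by norm_num) hk
  have h8 : (8 : ℕ) ^ k = 2 ^ k * 4 ^ k := by rw [← mul_pow]; norm_num
  have h4 : (4 : ℕ) ^ k = 2 ^ k * 2 ^ k := by rw [← mul_pow]; norm_num
  have hkk : k < 2 ^ k := Nat.lt_two_pow_self
  have hqP : 48 * 4 ^ k ≤ 8 ^ k := by
    rw [h8]
    exact Nat.mul_le_mul_right _ (by omega)
  have h32 : 32 * k ≤ 4 ^ k := by
    rw [h4]
    exact Nat.mul_le_mul (by omega) hkk.le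
  have h2q : 2 * 4 ^ k ≤ 8 ^ k := by omega
  obtain ⟨P', hP'⟩ : ∃ P', 8 ^ k = 2 * P' := by
    obtain ⟨j, rfl⟩ : ∃ j, k = j + 1 := ⟨k - 1, by omega⟩
    exact ⟨4 * 8 ^ j, by rw [pow_succ]; ring⟩
  -- real versions
  have hI : (((2 * k : ℕ)) : ℝ) = 2 * k := by push_cast; ring
  have hJ : ((1000 * (2 * k) ^ 3 : ℕ) : ℝ) = 8000 * (k : ℝ) ^ 3 := by push_cast; ring
  rw [hI] at hs1u hs1l hs2
  have e2 : (2 : ℝ) ^ (2 * k) = 4 ^ k := by rw [pow_mul]; norm_num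
  have e4 : (4 : ℝ) ^ (2 * k) = (4 ^ k) ^ 2 := by rw [mul_comm, pow_mul]
  rw [e2] at hs1u hs1l
  rw [e4] at hs2
  have hk20 : (20 : ℝ) ≤ k := by exact_mod_cast hk
  have hkr : (0 : ℝ) < k := by linarith
  have hqr : (0 : ℝ) < 4 ^ k := by positivity
  have hPr : (0 : ℝ) < 8 ^ k := by positivity
  have hPqr : ((8 : ℝ) ^ k) ^ 2 = (4 ^ k) ^ 3 := by exact_mod_cast hPq
  have hqPr : (4 : ℝ) ^ k ≤ 8 ^ k := by
    have : (4 : ℕ) ^ k ≤ 8 ^ k := by omega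
    exact_mod_cast this
  have h32r : 32 * (k : ℝ) ≤ 4 ^ k := by exact_mod_cast h32
  have hJ0 : (0 : ℝ) ≤ ((1000 * (2 * k) ^ 3 : ℕ) : ℝ) := Nat.cast_nonneg _
  have hsJ : ((1000 * (2 * k) ^ 3 : ℕ) : ℝ) ≤ 250 * (k : ℝ) ^ 2 * 4 ^ k := by
    rw [hJ]
    have := mul_le_mul_of_nonneg_left h32r (by positivity : (0 : ℝ) ≤ 250 * (k : ℝ) ^ 2)
    nlinarith
  have hD' : ∀ θ : ℝ, -(5 * (((1000 * (2 * k) ^ 3 : ℕ)) : ℝ)) ≤ ∑ l, D (nn l) θ := by
    intro θ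
    have h := hD θ
    push_cast at h ⊢
    exact h
  have hT := M5_T_ge nn (4 ^ k) hq
  have hTl : 2000 * (k : ℝ) ^ 2 * 4 ^ k ≤ M5_T nn (4 ^ k) := by
    refine le_trans ?_ hT
    refine le_trans (le_of_eq ?_) hs1l
    ring
  have hT0 : 0 < M5_T nn (4 ^ k) := lt_of_lt_of_le (by positivity) hTl
  obtain ⟨A, hA⟩ : ∃ A : ℝ, A = ∑ l, ((nn l : ℝ) * ((nn l : ℝ) + 1)) := ⟨_, rfl⟩
  have hA0 : 0 ≤ A := by
    rw [hA]
    exact Finset.sum_nonneg (fun l _ => by positivity)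
  have hAu : A ≤ 16000 * (k : ℝ) ^ 2 * (4 ^ k) ^ 2 := by
    have h5 : A ≤ 2 * ∑ l, (nn l : ℝ) ^ 2 := by
      rw [hA, Finset.mul_sum]
      refine Finset.sum_le_sum (fun l _ => ?_)
      have h6 : (1 : ℝ) ≤ nn l := by exact_mod_cast (hn l).1
      nlinarith
    refine h5.trans ?_
    refine le_trans (mul_le_mul_of_nonneg_left hs2 (by norm_num)) (le_of_eq ?_)
    ring
  obtain ⟨β, hβ⟩ : ∃ β : ℝ, β = 2 * A / (((8 : ℝ) ^ k) ^ 2 * M5_T nn (4 ^ k)) := ⟨_, rfl⟩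
  have hβ0 : 0 ≤ β := by
    rw [hβ]
    positivity
  have hβT : M5_T nn (4 ^ k) * β = 2 * A / (((8 ^ k : ℕ) : ℝ)) ^ 2 := by
    rw [hβ]
    push_cast
    field_simp
  obtain ⟨w, hw, htw, hmac⟩ := h2 (1000 * (2 * k) ^ 3) nn hD' (VV (8 ^ k))
    (Icc (1 : ℤ) (2 * ((8 ^ k : ℕ) : ℤ))) (M5_g (8 ^ k) β) (by
      intro u hu
      rw [Finset.mem_Icc]
      exact M5_bd hu)
  refine ⟨(VV (8 ^ k)).card, w, hw, ?_, ?_, ?_⟩
  · rw [htw]
    have h5 : ((1000 * (2 * k) ^ 3 : ℕ) : ℝ) ≤ (∑ l, (nn l : ℝ)) / 4 := by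
      nlinarith
    refine le_trans ?_ (M5_w_lo (8 ^ k) (4 ^ k) P' hP hq1 hP' hqP nn hq h5)
    have h6 : 250 * (k : ℝ) ^ 2 * 4 ^ k ≤
        (∑ l, (nn l : ℝ)) / 4 - ((1000 * (2 * k) ^ 3 : ℕ) : ℝ) := by nlinarith
    have h7 := mul_le_mul_of_nonneg_left h6 (by positivity : (0 : ℝ) ≤ (8 ^ k : ℕ) / 4)
    refine le_trans ?_ h7
    have h8 : (32 : ℝ) ^ k = 8 ^ k * 4 ^ k := by rw [← mul_pow]; norm_num
    rw [h8]
    push_cast
    have h9 : 0 ≤ (k : ℝ) ^ 2 * (8 ^ k * 4 ^ k) := by positivity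
    nlinarith
  · rw [htw]
    refine (M5_w_up (8 ^ k) nn).trans ?_
    have h8 : (32 : ℝ) ^ k = 8 ^ k * 4 ^ k := by rw [← mul_pow]; norm_num
    rw [h8]
    push_cast
    refine le_trans (mul_le_mul_of_nonneg_left hs1u (by positivity)) (le_of_eq ?_)
    ring
  · have hQ := M5_Q nn (8 ^ k) (4 ^ k) hq1 hq β hβ0
    have hE := M5_err_sum (8 ^ k) (4 ^ k) hP hq1 hPq h2q nn hq A β hA hβ0 hβT
    have hC := M5_card_VV (8 ^ k)
    have hPc : ((8 ^ k : ℕ) : ℝ) = 8 ^ k := by push_cast; rfl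
    have hqc : ((4 ^ k : ℕ) : ℝ) = 4 ^ k := by push_cast; rfl
    rw [hPc] at hQ hC
    rw [hPc, hqc, hJ] at hE
    rw [hJ] at hmac
    have hfin := M5_arith ((k : ℝ) ^ 2) (8000 * (k : ℝ) ^ 3) (8 ^ k) (4 ^ k) A
      (M5_T nn (4 ^ k)) β _ (totalWeight w)
      (∑ v ∈ VV (8 ^ k), |balK nn (VV (8 ^ k)) v - M5_S nn (8 ^ k) β v|) (mac w) _
      (by positivity) hPr hqr (by positivity) hTl hA0 hAu hβ hPqr hqPr hQ hC hE hmac
    refine hfin.trans ?_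
    have h9 : (k : ℝ) ^ 2 ≤ (k : ℝ) ^ 3 := by nlinarith [sq_nonneg (k : ℝ)]
    have h10 := mul_le_mul_of_nonneg_right h9 hPr.le
    have h11 : (15 / 2 * (8000 * (k : ℝ) ^ 3) + 144000 * (k : ℝ) ^ 2) * 8 ^ k =
        60000 * ((k : ℝ) ^ 3 * 8 ^ k) + 144000 * ((k : ℝ) ^ 2 * 8 ^ k) := by ring
    have h12 : 204000 * (k : ℝ) ^ 3 * 8 ^ k = 204000 * ((k : ℝ) ^ 3 * 8 ^ k) := by ring
    rw [h11, h12]
    linarith

end Pool.Agent.H427R2.MU
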