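import Pool.Agent.H427R2.MU.St

set_option autoImplicit false

/-! Task M3 (PSDK): the kernel is positive semidefinite. -/

namespace Pool.Agent.H427R2.MU

open Finset

/-- the integrals of the cosines -/
theorem M3_cos (k : ℤ) : ∫ θ in (0 : ℝ)..(2 * Real.pi), Real.cos ((k : ℝ) * θ) =
    if k = 0 then 2 * Real.pi else 0 := by
  by_cases hk : k = 0
  · rw [if_pos hk, hk]
    simp
  · rw [if_neg hk]
    have hkR : (k : ℝ) ≠ 0 := by exact_mod_cast hk
    rw [intervalIntegral.integral_comp_mul_left (fun x => Real.cos x) hkR, integral_cos]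
    have h1 : Real.sin ((k : ℝ) * (2 * Real.pi)) = 0 := by
      have : (k : ℝ) * (2 * Real.pi) = ((2 * k : ℤ) : ℝ) * Real.pi := by push_cast; ring
      rw [this]
      exact Real.sin_int_mul_pi _
    rw [h1]
    simp

theorem M3_sum (d : ℤ) (n : ℕ) :
    (if d = 0 then 2 * Real.pi else 0) + ∑ k ∈ Icc 1 n,
      ((if (k : ℤ) - d = 0 then 2 * Real.pi else 0) + (if (k : ℤ) + d = 0 then 2 * Real.pi else 0)) =
    2 * Real.pi * (if |d| ≤ (n : ℤ) then (1 : ℝ) else 0) := by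
  induction n with
  | zero =>
    by_cases hd : d = 0
    · simp [hd]
    · have : ¬ |d| ≤ ((0 : ℕ) : ℤ) := by
        rw [abs_le]
        push_cast
        omega
      simp [hd]
  | succ n ih =>
    rw [Finset.sum_Icc_succ_top (by omega), ← add_assoc, ih]
    have e1 : (|d| ≤ (n : ℤ)) ↔ (-(n : ℤ) ≤ d ∧ d ≤ n) := abs_le
    have e2 : (|d| ≤ ((n + 1 : ℕ) : ℤ)) ↔ (-((n : ℤ) + 1) ≤ d ∧ d ≤ (n : ℤ) + 1) := by
      rw [abs_le]; push_cast; rfl
    simp only [e1, e2]
    push_cast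
    by_cases h1 : d = (n : ℤ) + 1
    · have a1 : ¬ (-(n : ℤ) ≤ d ∧ d ≤ n) := by omega
      have a2 : (-((n : ℤ) + 1) ≤ d ∧ d ≤ (n : ℤ) + 1) := by omega
      have a3 : (n : ℤ) + 1 - d = 0 := by omega
      have a4 : ¬ ((n : ℤ) + 1 + d = 0) := by omega
      rw [if_neg a1, if_pos a2, if_pos a3, if_neg a4]
      ring
    · by_cases h2 : d = -((n : ℤ) + 1)
      · have a1 : ¬ (-(n : ℤ) ≤ d ∧ d ≤ n) := by omega
        have a2 : (-((n : ℤ) + 1) ≤ d ∧ d ≤ (n : ℤ) + 1) := by omega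
        have a3 : ¬ ((n : ℤ) + 1 - d = 0) := by omega
        have a4 : ((n : ℤ) + 1 + d = 0) := by omega
        rw [if_neg a1, if_pos a2, if_neg a3, if_pos a4]
        ring
      · have a3 : ¬ ((n : ℤ) + 1 - d = 0) := by omega
        have a4 : ¬ ((n : ℤ) + 1 + d = 0) := by omega
        rw [if_neg a3, if_neg a4]
        by_cases a1 : (-(n : ℤ) ≤ d ∧ d ≤ n)
        · have a2 : (-((n : ℤ) + 1) ≤ d ∧ d ≤ (n : ℤ) + 1) := by omega
          rw [if_pos a1, if_pos a2]; ring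
        · have a2 : ¬ (-((n : ℤ) + 1) ≤ d ∧ d ≤ (n : ℤ) + 1) := by omega
          rw [if_neg a1, if_neg a2]; ring

/-- the symbol -/
noncomputable def M3_G {J : ℕ} (nn : Fin J → ℕ) (θ : ℝ) : ℝ := 5 * (J : ℝ) + ∑ l, D (nn l) θ

theorem M3_expand (n : ℕ) (d : ℤ) (θ : ℝ) : D n θ * Real.cos ((d : ℝ) * θ) =
    Real.cos ((d : ℝ) * θ) + ∑ k ∈ Icc 1 n, (Real.cos ((((k : ℤ) - d : ℤ) : ℝ) * θ) +
      Real.cos ((((k : ℤ) + d : ℤ) : ℝ) * θ)) := by
  unfold D
  rw [add_mul, one_mul]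
  congr 1
  rw [mul_assoc, Finset.sum_mul, Finset.mul_sum]
  apply Finset.sum_congr rfl
  intro k _
  push_cast
  have e1 : ((k : ℝ) - d) * θ = k * θ - d * θ := by ring
  have e2 : ((k : ℝ) + d) * θ = k * θ + d * θ := by ring
  rw [e1, e2, Real.cos_sub, Real.cos_add]
  ring

theorem M3_contcos (k : ℤ) : Continuous (fun θ : ℝ => Real.cos ((k : ℝ) * θ)) := by fun_prop

theorem M3_intD (n : ℕ) (d : ℤ) : ∫ θ in (0 : ℝ)..(2 * Real.pi), D n θ * Real.cos ((d : ℝ) * θ) =
    2 * Real.pi * (if |d| ≤ (n : ℤ) then (1 : ℝ) else 0) := by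
  simp only [M3_expand]
  have hc1 : ∀ k : ℕ, Continuous (fun θ : ℝ => Real.cos ((((k : ℤ) - d : ℤ) : ℝ) * θ) +
      Real.cos ((((k : ℤ) + d : ℤ) : ℝ) * θ)) := fun k => (M3_contcos _).add (M3_contcos _)
  have hc2 : Continuous (fun θ : ℝ => ∑ k ∈ Icc 1 n, (Real.cos ((((k : ℤ) - d : ℤ) : ℝ) * θ) +
      Real.cos ((((k : ℤ) + d : ℤ) : ℝ) * θ))) := continuous_finsetSum _ (fun k _ => hc1 k)
  rw [intervalIntegral.integral_add ((M3_contcos d).intervalIntegrable _ _)
    (hc2.intervalIntegrable _ _), intervalIntegral.integral_finsetSum (fun k _ =>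
      (hc1 k).intervalIntegrable _ _), M3_cos d, ← M3_sum d n]
  congr 1
  apply Finset.sum_congr rfl
  intro k _
  rw [intervalIntegral.integral_add ((M3_contcos _).intervalIntegrable _ _)
    ((M3_contcos _).intervalIntegrable _ _), M3_cos, M3_cos]

theorem M3_contD (n : ℕ) : Continuous (D n) := by
  unfold D
  fun_prop

theorem M3_contG {J : ℕ} (nn : Fin J → ℕ) : Continuous (M3_G nn) := by
  unfold M3_G
  exact continuous_const.add (continuous_finsetSum _ (fun l _ => M3_contD _))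

theorem M3_intG {J : ℕ} (nn : Fin J → ℕ) (d : ℤ) :
    ∫ θ in (0 : ℝ)..(2 * Real.pi), M3_G nn θ * Real.cos ((d : ℝ) * θ) = 2 * Real.pi * kp nn d := by
  have h1 : ∀ θ : ℝ, M3_G nn θ * Real.cos ((d : ℝ) * θ) =
      5 * (J : ℝ) * Real.cos ((d : ℝ) * θ) + ∑ l, D (nn l) θ * Real.cos ((d : ℝ) * θ) := by
    intro θ
    unfold M3_G
    rw [add_mul, Finset.sum_mul]
  simp only [h1]
  have hc0 : Continuous (fun θ : ℝ => 5 * (J : ℝ) * Real.cos ((d : ℝ) * θ)) :=
    continuous_const.mul (M3_contcos d)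
  have hc1 : ∀ l : Fin J, Continuous (fun θ : ℝ => D (nn l) θ * Real.cos ((d : ℝ) * θ)) :=
    fun l => (M3_contD _).mul (M3_contcos d)
  have hc2 : Continuous (fun θ : ℝ => ∑ l, D (nn l) θ * Real.cos ((d : ℝ) * θ)) :=
    continuous_finsetSum _ (fun l _ => hc1 l)
  rw [intervalIntegral.integral_add (hc0.intervalIntegrable _ _) (hc2.intervalIntegrable _ _),
    intervalIntegral.integral_finsetSum (fun l _ => (hc1 l).intervalIntegrable _ _),
    intervalIntegral.integral_const_mul, M3_cos d]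
  simp only [M3_intD]
  rw [← Finset.mul_sum]
  unfold kp
  by_cases hd : d = 0
  · rw [if_pos hd, if_pos hd, hd]
    simp
    ring
  · rw [if_neg hd, if_neg hd]
    unfold kap
    ring

theorem t_PSDK : S_PSDK := by
  intro J nn hθ W x
  have hG0 : ∀ θ, 0 ≤ M3_G nn θ := by
    intro θ
    unfold M3_G
    have := hθ θ
    linarith
  have hexp : ∀ θ : ℝ, M3_G nn θ * ((∑ v ∈ W, x v * Real.cos ((v : ℝ) * θ)) ^ 2 +
      (∑ v ∈ W, x v * Real.sin ((v : ℝ) * θ)) ^ 2) =
      ∑ u ∈ W, ∑ v ∈ W, x u * x v * (M3_G nn θ * Real.cos ((((u - v : ℤ)) : ℝ) * θ)) := by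
    intro θ
    rw [sq, sq, Finset.sum_mul_sum, Finset.sum_mul_sum, ← Finset.sum_add_distrib, Finset.mul_sum]
    apply Finset.sum_congr rfl
    intro u _
    rw [← Finset.sum_add_distrib, Finset.mul_sum]
    apply Finset.sum_congr rfl
    intro v _
    push_cast
    have e1 : ((u : ℝ) - v) * θ = u * θ - v * θ := by ring
    rw [e1, Real.cos_sub]
    ring
  have hint : ∫ θ in (0 : ℝ)..(2 * Real.pi), M3_G nn θ *
      ((∑ v ∈ W, x v * Real.cos ((v : ℝ) * θ)) ^ 2 +
      (∑ v ∈ W, x v * Real.sin ((v : ℝ) * θ)) ^ 2) =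
      2 * Real.pi * ∑ u ∈ W, ∑ v ∈ W, kp nn (u - v) * x u * x v := by
    simp only [hexp]
    have hc : ∀ u v : ℤ, Continuous (fun θ : ℝ => x u * x v *
        (M3_G nn θ * Real.cos ((((u - v : ℤ)) : ℝ) * θ))) := fun u v =>
      continuous_const.mul ((M3_contG nn).mul (M3_contcos _))
    rw [intervalIntegral.integral_finsetSum (fun u _ =>
      (continuous_finsetSum _ (fun v _ => hc u v)).intervalIntegrable _ _), Finset.mul_sum]
    apply Finset.sum_congr rfl
    intro u _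
    rw [intervalIntegral.integral_finsetSum (fun v _ => (hc u v).intervalIntegrable _ _),
      Finset.mul_sum]
    apply Finset.sum_congr rfl
    intro v _
    rw [intervalIntegral.integral_const_mul, M3_intG]
    ring
  have hnn : 0 ≤ ∫ θ in (0 : ℝ)..(2 * Real.pi), M3_G nn θ *
      ((∑ v ∈ W, x v * Real.cos ((v : ℝ) * θ)) ^ 2 +
      (∑ v ∈ W, x v * Real.sin ((v : ℝ) * θ)) ^ 2) := by
    apply intervalIntegral.integral_nonneg (by positivity)
    intro θ _
    exact mul_nonneg (hG0 θ) (by positivity)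
  rw [hint] at hnn
  exact nonneg_of_mul_nonneg_right hnn (by positivity)

end Pool.Agent.H427R2.MU
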