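import Pool.Agent.H427R2.MU.T_BKM
import Pool.Agent.H427R2.MU.T_BK
import Pool.Agent.H427R2.MU.T_PSDK
import Pool.Agent.H427R2.MU.T_DUALK
import Pool.Agent.H427R2.MU.T_MUK
import Pool.Agent.H427R2.MU.T_MUALL

set_option autoImplicit false

namespace Pool.Agent.H427R2.MU

theorem MU_all : S_MUALL := t_MUALL (t_MUK (t_BK t_BKM) (t_DUALK t_PSDK))

end Pool.Agent.H427R2.MU
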