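import Mathlib
import Pool.Agent.Helper883.Dicut.HDefs

set_option autoImplicit false

/-! `h_μ(m) ≤ m/4 + C m^{3/5} (log m)^{9/5}`: statements. -/

namespace Pool.Agent.H427R2.MU

open Finset
open Pool.Agent.Helper883.Dicut

/-- Dirichlet kernel -/
noncomputable def D (n : ℕ) (θ : ℝ) : ℝ := 1 + 2 * ∑ k ∈ Icc 1 n, Real.cos (k * θ)

/-- BKM: mean of the random thresholds. -/
def S_BKM : Prop := ∀ (I : ℕ) (θ : ℝ), 1 ≤ I → 3 / (2 : ℝ) ^ I ≤ θ → θ ≤ 0.52 →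
  0.2 ≤ ∑ i ∈ range I, (1 / (2 : ℝ) ^ i) * ∑ n ∈ Ico ((2 : ℕ) ^ i) ((2 : ℕ) ^ (i + 1)), Real.sin (((n : ℝ) + 1 / 2) * θ)

/-- BK: a small family of thresholds whose Dirichlet kernels have a sum bounded below. -/
def S_BK : Prop := ∀ I : ℕ, 1 ≤ I → ∃ nn : Fin (1000 * I ^ 3) → ℕ,
  (∀ l, 1 ≤ nn l ∧ nn l < 2 ^ I) ∧ ∑ l, (nn l : ℝ) ≤ 2000 * (I : ℝ) ^ 2 * 2 ^ I ∧
  500 * (I : ℝ) ^ 2 * 2 ^ I ≤ ∑ l, (nn l : ℝ) ∧ ∑ l, (nn l : ℝ) ^ 2 ≤ 2000 * (I : ℝ) ^ 2 * 4 ^ I ∧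
  ∀ θ : ℝ, -(5 * (1000 * (I : ℝ) ^ 3)) ≤ ∑ l, D (nn l) θ

/-- multiplicity of the arc between positions at distance `d` -/
noncomputable def kap {J : ℕ} (nn : Fin J → ℕ) (d : ℤ) : ℝ := ∑ l, if |d| ≤ (nn l : ℤ) then (1 : ℝ) else 0

/-- the kernel with diagonal `6 J` -/
noncomputable def kp {J : ℕ} (nn : Fin J → ℕ) (d : ℤ) : ℝ := if d = 0 then 6 * (J : ℝ) else kap nn d

/-- PSDK: the kernel is positive semidefinite. -/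
def S_PSDK : Prop := ∀ (J : ℕ) (nn : Fin J → ℕ), (∀ θ : ℝ, -(5 * (J : ℝ)) ≤ ∑ l, D (nn l) θ) →
  ∀ (W : Finset ℤ) (x : ℤ → ℝ), 0 ≤ ∑ u ∈ W, ∑ v ∈ W, kp nn (u - v) * x u * x v

/-- balance of the position `v` in the multigraph on `V` -/
noncomputable def balK {J : ℕ} (nn : Fin J → ℕ) (V : Finset ℤ) (v : ℤ) : ℝ :=
  (∑ u ∈ V with v < u, kap nn (u - v)) - ∑ u ∈ V with u < v, kap nn (u - v)

/-- DUALK: the multigraph on `V` and the dual bound for its directed cuts; `g` is any test function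
supported in `W`. -/
def S_DUALK : Prop := ∀ (J : ℕ) (nn : Fin J → ℕ), (∀ θ : ℝ, -(5 * (J : ℝ)) ≤ ∑ l, D (nn l) θ) →
  ∀ (V W : Finset ℤ) (g : ℤ → ℝ), V ⊆ W → ∃ w : WDigraph V.card, ClassM V.card w ∧
    totalWeight w = ∑ u ∈ V, ∑ v ∈ V with u < v, kap nn (v - u) ∧
    mac w ≤ totalWeight w / 4 + (∑ u ∈ W, ∑ v ∈ W, kp nn (u - v) * g u * g v) / 8 +
      3 * (J : ℝ) * V.card / 4 + (∑ v ∈ V, |balK nn V v - ∑ u ∈ W, kp nn (u - v) * g u|) / 4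

/-- the vertex set: left half -/
noncomputable def VL (P : ℕ) : Finset ℤ := (Icc (1 : ℤ) P).filter (fun v => (v - 1) ^ 3 / (3 * (P : ℤ) ^ 2) < v ^ 3 / (3 * (P : ℤ) ^ 2))

/-- the vertex set -/
noncomputable def VV (P : ℕ) : Finset ℤ := VL P ∪ (VL P).image (fun v => 2 * (P : ℤ) + 1 - v)

/-- MUK: the family of multigraphs. -/
def S_MUK : Prop := ∃ c1 c2 K : ℝ, 0 < c1 ∧ 0 < c2 ∧ 0 < K ∧ ∀ k : ℕ, 20 ≤ k →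
  ∃ (n : ℕ) (w : WDigraph n), ClassM n w ∧ c1 * (k : ℝ) ^ 2 * 32 ^ k ≤ totalWeight w ∧
    totalWeight w ≤ c2 * (k : ℝ) ^ 2 * 32 ^ k ∧ mac w ≤ totalWeight w / 4 + K * (k : ℝ) ^ 3 * 8 ^ k

/-- MUALL: every number of arcs. -/
def S_MUALL : Prop := ∃ K : ℝ, 0 < K ∧ ∀ m : ℕ, 2 ≤ m →
  (hMulti m : ℝ) ≤ (m : ℝ) / 4 + K * (m : ℝ) ^ ((3 : ℝ) / 5) * Real.log m ^ ((9 : ℝ) / 5)

end Pool.Agent.H427R2.MU
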