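import Pool.Agent.H427R2.MU.St

/-! # BKM: mean of the random thresholds (helper765) -/

set_option autoImplicit false

namespace Pool.Agent.H427R2.MU

open Finset

theorem BKM_tel (θ : ℝ) (a b : ℕ) (hab : a ≤ b) :
    2 * Real.sin (θ / 2) * ∑ n ∈ Ico a b, Real.sin (((n : ℝ) + 1 / 2) * θ) =
      Real.cos (a * θ) - Real.cos (b * θ) := by
  induction b, hab using Nat.le_induction with
  | base => simp
  | succ b hab ih =>
    rw [Finset.sum_Ico_succ_top hab, mul_add, ih]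
    have h1 : Real.cos ((b : ℝ) * θ) - Real.cos (((b + 1 : ℕ) : ℝ) * θ) =
        2 * Real.sin (θ / 2) * Real.sin (((b : ℝ) + 1 / 2) * θ) := by
      rw [Real.cos_sub_cos]
      have e1 : ((b : ℝ) * θ + ((b + 1 : ℕ) : ℝ) * θ) / 2 = ((b : ℝ) + 1 / 2) * θ := by
        push_cast; ring
      have e2 : ((b : ℝ) * θ - ((b + 1 : ℕ) : ℝ) * θ) / 2 = -(θ / 2) := by
        push_cast; ring
      rw [e1, e2, Real.sin_neg]
      ring
    linarith

theorem BKM_abel (c : ℕ → ℝ) (I : ℕ) :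
    ∑ i ∈ range I, (1 / 2 : ℝ) ^ (i + 1) * (c i - c (i + 1)) =
      ∑ i ∈ range I, (1 / 2 : ℝ) ^ (i + 1) * (c 0 - c i) + (1 / 2 : ℝ) ^ I * (c 0 - c I) := by
  induction I with
  | zero => simp
  | succ I ih =>
    rw [Finset.sum_range_succ, Finset.sum_range_succ, ih, pow_succ]
    ring

/-- the lower bound for the weighted sum -/
theorem BKM_low (d : ℕ → ℝ) (k I : ℕ) (hk : k ≤ I) (e : ℝ) (he : 0 ≤ e) (h0 : ∀ i < k, 0 ≤ d i)
    (h1 : e ≤ d k) (h2 : ∀ i, -e ≤ d i) :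
    (1 / 2 : ℝ) ^ (k + 1) * (d k - e) ≤
      ∑ i ∈ range I, (1 / 2 : ℝ) ^ (i + 1) * d i + (1 / 2 : ℝ) ^ I * d I := by
  have hp : ∀ j : ℕ, 0 < (1 / 2 : ℝ) ^ j := fun j => by positivity
  have a0 : 0 ≤ ∑ i ∈ range k, (1 / 2 : ℝ) ^ (i + 1) * d i :=
    Finset.sum_nonneg fun i hi => mul_nonneg (hp _).le (h0 i (mem_range.1 hi))
  obtain ⟨t, rfl⟩ := Nat.exists_eq_add_of_le hk
  cases t with
  | zero =>
    rw [add_zero]
    have h3 : (1 / 2 : ℝ) ^ (k + 1) * (d k - e) ≤ (1 / 2 : ℝ) ^ k * d k := by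
      rw [pow_succ]
      have := hp k
      nlinarith
    linarith
  | succ t =>
    have key : ∀ t : ℕ, (1 / 2 : ℝ) ^ (k + 1) * d k -
        e * ((1 / 2 : ℝ) ^ (k + 1) - (1 / 2 : ℝ) ^ (k + (t + 1))) ≤
        ∑ i ∈ range (k + (t + 1)), (1 / 2 : ℝ) ^ (i + 1) * d i := by
      intro t
      induction t with
      | zero =>
        rw [zero_add, Finset.sum_range_succ]
        linarith
      | succ t ih =>
        have e1 : k + (t + 1 + 1) = (k + (t + 1)) + 1 := by ring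
        rw [e1, Finset.sum_range_succ, pow_succ (1 / 2 : ℝ) (k + (t + 1))]
        have h4 := h2 (k + (t + 1))
        have h5 := hp (k + (t + 1))
        have h6 : -(e * ((1 / 2 : ℝ) ^ (k + (t + 1)) * (1 / 2))) ≤
            (1 / 2 : ℝ) ^ (k + (t + 1)) * (1 / 2) * d (k + (t + 1)) := by
          have := mul_le_mul_of_nonneg_left h4 (by positivity :
            0 ≤ (1 / 2 : ℝ) ^ (k + (t + 1)) * (1 / 2))
          linarith
        linarith
    have h7 := key t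
    have h8 := mul_le_mul_of_nonneg_left (h2 (k + (t + 1))) (hp (k + (t + 1))).le
    linarith

theorem t_BKM : S_BKM := by
  intro I θ hI h3 hθ
  have hpi := Real.pi_gt_d2
  have hpi' := Real.pi_lt_d2
  have hθ0 : 0 < θ := lt_of_lt_of_le (by positivity) h3
  have hs : 0 < Real.sin (θ / 2) := Real.sin_pos_of_pos_of_lt_pi (by linarith) (by linarith)
  have hs2 : Real.sin (θ / 2) ≤ θ / 2 := Real.sin_le (by linarith)
  set c : ℕ → ℝ := fun i => Real.cos ((2 : ℝ) ^ i * θ) with hc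
  -- the sum
  have hsum : Real.sin (θ / 2) * ∑ i ∈ range I, (1 / (2 : ℝ) ^ i) *
      ∑ n ∈ Ico ((2 : ℕ) ^ i) ((2 : ℕ) ^ (i + 1)), Real.sin (((n : ℝ) + 1 / 2) * θ) =
      ∑ i ∈ range I, (1 / 2 : ℝ) ^ (i + 1) * (c i - c (i + 1)) := by
    rw [Finset.mul_sum]
    apply Finset.sum_congr rfl
    intro i _
    have h := BKM_tel θ (2 ^ i) (2 ^ (i + 1)) (Nat.pow_le_pow_right (by norm_num) (by omega))
    push_cast at h
    have e1 : c i - c (i + 1) = Real.cos ((2 : ℝ) ^ i * θ) - Real.cos ((2 : ℝ) ^ (i + 1) * θ) := rfl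
    rw [e1, ← h, pow_succ, one_div_pow]
    ring
  -- the index k
  have hex : ∃ k : ℕ, Real.pi / 2 < (2 : ℝ) ^ k * θ := by
    refine ⟨I, ?_⟩
    have : 3 ≤ (2 : ℝ) ^ I * θ := by
      rw [div_le_iff₀ (by positivity)] at h3
      linarith
    linarith
  classical
  obtain ⟨k, hk⟩ : ∃ k, k = Nat.find hex := ⟨_, rfl⟩
  have hk1 : Real.pi / 2 < (2 : ℝ) ^ k * θ := by rw [hk]; exact Nat.find_spec hex
  have hk2 : ∀ i < k, (2 : ℝ) ^ i * θ ≤ Real.pi / 2 := by
    intro i hi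
    rw [hk] at hi
    exact not_lt.1 (Nat.find_min hex hi)
  have hkI : k ≤ I := by
    rw [hk]
    apply Nat.find_min'
    have : 3 ≤ (2 : ℝ) ^ I * θ := by
      rw [div_le_iff₀ (by positivity)] at h3
      linarith
    linarith
  have hk0 : k ≠ 0 := by
    rintro rfl
    rw [pow_zero, one_mul] at hk1
    linarith
  obtain ⟨k', hk'⟩ : ∃ k', k = k' + 1 := ⟨k - 1, by omega⟩
  subst hk'
  have hk3 : (2 : ℝ) ^ (k' + 1) * θ ≤ Real.pi := by
    have := hk2 k' (Nat.lt_succ_self _)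
    rw [pow_succ]
    linarith
  have hc0 : 1 - θ ^ 2 / 2 ≤ c 0 := by
    have := Real.one_sub_sq_div_two_le_cos (x := θ)
    simpa [hc] using this
  have hlow := BKM_low (fun i => c 0 - c i) (k' + 1) I hkI (θ ^ 2 / 2) (by positivity) ?_ ?_ ?_
  · have hT : (1 / 2 : ℝ) ^ (k' + 1 + 1) * (c 0 - c (k' + 1) - θ ^ 2 / 2) ≤
        ∑ i ∈ range I, (1 / 2 : ℝ) ^ (i + 1) * (c i - c (i + 1)) := by
      rw [BKM_abel]
      exact hlow
    rw [← hsum] at hT
    have hck : c (k' + 1) ≤ 0 := by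
      apply Real.cos_nonpos_of_pi_div_two_le_of_le hk1.le
      have : (2 : ℝ) ^ (k' + 1) * θ ≤ Real.pi := hk3
      linarith
    have h5 : 0.7296 ≤ c 0 - c (k' + 1) - θ ^ 2 / 2 := by nlinarith
    have h6 : θ / Real.pi ≤ (1 / 2 : ℝ) ^ (k' + 1) := by
      rw [div_le_iff₀ (by linarith), one_div_pow, one_div, ← div_eq_inv_mul,
        le_div_iff₀ (by positivity)]
      linarith
    have h7 : (20 / 63 : ℝ) * θ ≤ θ / Real.pi := by
      rw [le_div_iff₀ (by linarith)]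
      norm_num at hpi'
      nlinarith
    have h8 : (20 / 63 : ℝ) * θ ≤ (1 / 2 : ℝ) ^ (k' + 1) := h7.trans h6
    have h9 : (1 / 10 : ℝ) * θ ≤ (1 / 2 : ℝ) ^ (k' + 1 + 1) * (c 0 - c (k' + 1) - θ ^ 2 / 2) := by
      have h10 : (10 / 63 : ℝ) * θ ≤ (1 / 2 : ℝ) ^ (k' + 1 + 1) := by
        rw [pow_succ]
        linarith
      norm_num at h5
      calc (1 / 10 : ℝ) * θ ≤ (10 / 63 : ℝ) * θ * (456 / 625) := by linarith
        _ ≤ _ := mul_le_mul h10 h5 (by norm_num) (by positivity)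
    by_contra hcon
    push Not at hcon
    have h11 := mul_lt_mul_of_pos_left hcon hs
    linarith
  · intro i hi
    have h4 := hk2 i hi
    have h5 : θ ≤ (2 : ℝ) ^ i * θ := by
      have : (1 : ℝ) ≤ 2 ^ i := one_le_pow₀ (by norm_num)
      nlinarith
    have h6 : Real.cos ((2 : ℝ) ^ i * θ) ≤ Real.cos θ :=
      Real.cos_le_cos_of_nonneg_of_le_pi hθ0.le (by linarith) h5
    have h7 : c 0 = Real.cos θ := by simp [hc]
    show 0 ≤ c 0 - c i
    rw [h7]
    have h8 : c i = Real.cos ((2 : ℝ) ^ i * θ) := rfl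
    rw [h8]
    linarith
  · have hck : c (k' + 1) ≤ 0 := by
      apply Real.cos_nonpos_of_pi_div_two_le_of_le hk1.le
      have : (2 : ℝ) ^ (k' + 1) * θ ≤ Real.pi := hk3
      linarith
    show θ ^ 2 / 2 ≤ c 0 - c (k' + 1)
    nlinarith
  · intro i
    have h4 : c i ≤ 1 := Real.cos_le_one _
    show -(θ ^ 2 / 2) ≤ c 0 - c i
    linarith

end Pool.Agent.H427R2.MU
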